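import Mathlib

set_option autoImplicit false

namespace Pool.Agent.X45.CircOrd

open Finset

/-- Separated blocks of positions. -/
lemma sep (M : ℕ) : ∀ (s : ℕ) (X : Fin s → Finset ℕ), (∀ i, s * M ≤ (X i).card) →
    ∃ (σ : Fin s → Fin s) (Y : Fin s → Finset ℕ), Function.Injective σ ∧
      (∀ j, Y j ⊆ X (σ j)) ∧ (∀ j, (Y j).card = M) ∧
      ∀ j j', j < j' → ∀ a ∈ Y j, ∀ b ∈ Y j', a < b := by
  intro s
  induction s with
  | zero =>
    intro X _
    exact ⟨id, fun _ => ∅, Function.injective_id, fun j => j.elim0, fun j => j.elim0,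
      fun j => j.elim0⟩
  | succ s ih =>
    intro X hX
    have hex : ∀ i, ∃ t, M ≤ ((X i).filter (fun x => x < t)).card := by
      intro i
      refine ⟨(X i).sup id + 1, ?_⟩
      have : (X i).filter (fun x => x < (X i).sup id + 1) = X i := by
        apply Finset.filter_true_of_mem
        intro x hx
        exact Nat.lt_succ_of_le (Finset.le_sup (f := id) hx)
      rw [this]
      calc M ≤ (s + 1) * M := Nat.le_mul_of_pos_left _ (Nat.succ_pos _)
        _ ≤ _ := hX i
    classical
    let t : Fin (s + 1) → ℕ := fun i => Nat.find (hex i)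
    obtain ⟨i0, hi0⟩ := Finite.exists_min t
    have hle : ∀ i, ((X i).filter (fun x => x < t i0)).card ≤ M := by
      intro i
      have h1 : (X i).filter (fun x => x < t i0) ⊆ (X i).filter (fun x => x < t i) := by
        intro x hx
        rw [mem_filter] at hx ⊢
        exact ⟨hx.1, lt_of_lt_of_le hx.2 (hi0 i)⟩
      refine (card_le_card h1).trans ?_
      rcases Nat.eq_zero_or_pos (t i) with h0 | h0
      · rw [h0]; simp
      · have h2 : ¬ M ≤ ((X i).filter (fun x => x < t i - 1)).card :=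
          Nat.find_min (hex i) (Nat.sub_lt h0 Nat.one_pos)
        have h3 : (X i).filter (fun x => x < t i) ⊆
            insert (t i - 1) ((X i).filter (fun x => x < t i - 1)) := by
          intro x hx
          rw [mem_filter] at hx
          rw [mem_insert, mem_filter]
          by_cases hx1 : x = t i - 1
          · exact Or.inl hx1
          · exact Or.inr ⟨hx.1, by omega⟩
        have h4 := (card_le_card h3).trans (card_insert_le _ _)
        omega
    obtain ⟨Y0, hY0, hY0c⟩ := Finset.exists_subset_card_eq (Nat.find_spec (hex i0))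
    obtain ⟨σ, Y, hσ, hYX, hYc, hYo⟩ := ih
      (fun i => (X (i0.succAbove i)).filter (fun x => t i0 ≤ x)) (by
        intro i
        have h1 := hle (i0.succAbove i)
        have h2 := Finset.card_filter_add_card_filter_not (s := X (i0.succAbove i))
          (fun x => x < t i0)
        have h3 : (X (i0.succAbove i)).filter (fun x => ¬ x < t i0) =
            (X (i0.succAbove i)).filter (fun x => t i0 ≤ x) := by
          apply filter_congr
          intro x _
          exact not_lt
        rw [h3] at h2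
        have h4 := hX (i0.succAbove i)
        have h5 : (s + 1) * M = s * M + M := by ring
        show s * M ≤ ((X (i0.succAbove i)).filter (fun x => t i0 ≤ x)).card
        omega)
    refine ⟨Fin.cons i0 (fun j => i0.succAbove (σ j)), Fin.cons Y0 Y, ?_, ?_, ?_, ?_⟩
    · intro a b hab
      rcases Fin.eq_zero_or_eq_succ a with rfl | ⟨a, rfl⟩ <;>
        rcases Fin.eq_zero_or_eq_succ b with rfl | ⟨b, rfl⟩
      · rfl
      · rw [Fin.cons_zero, Fin.cons_succ] at hab
        exact absurd hab.symm (Fin.succAbove_ne _ _)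
      · rw [Fin.cons_zero, Fin.cons_succ] at hab
        exact absurd hab (Fin.succAbove_ne _ _)
      · rw [Fin.cons_succ, Fin.cons_succ] at hab
        rw [hσ (Fin.succAbove_right_injective hab)]
    · intro j
      rcases Fin.eq_zero_or_eq_succ j with rfl | ⟨j, rfl⟩
      · rw [Fin.cons_zero, Fin.cons_zero]
        exact hY0.trans (filter_subset _ _)
      · rw [Fin.cons_succ, Fin.cons_succ]
        exact (hYX j).trans (filter_subset _ _)
    · intro j
      rcases Fin.eq_zero_or_eq_succ j with rfl | ⟨j, rfl⟩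
      · rw [Fin.cons_zero]; exact hY0c
      · rw [Fin.cons_succ]; exact hYc j
    · intro j j' hjj
      rcases Fin.eq_zero_or_eq_succ j with rfl | ⟨j, rfl⟩ <;>
        rcases Fin.eq_zero_or_eq_succ j' with rfl | ⟨j', rfl⟩
      · exact absurd hjj (lt_irrefl _)
      · rw [Fin.cons_zero, Fin.cons_succ]
        intro a ha b hb
        have h1 := (mem_filter.1 (hY0 ha)).2
        have h2 := (mem_filter.1 (hYX j' hb)).2
        exact lt_of_lt_of_le h1 h2
      · exact absurd hjj (by simp)
      · rw [Fin.cons_succ, Fin.cons_succ]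
        exact hYo j j' (Fin.succ_lt_succ_iff.1 hjj)

/-- Counting the functions that match no target on pairwise disjoint sets. -/
lemma count {X S : Type} [Fintype X] [DecidableEq X] [DecidableEq S] (D : S → Finset X)
    (t : S → X → Bool) (C : ℕ) (hC : ∀ c, (D c).card ≤ C)
    (hD : ∀ c c', c ≠ c' → Disjoint (D c) (D c')) (T : Finset S) :
    ((univ.filter (fun e : X → Bool => ∀ c ∈ T, ∃ x ∈ D c, e x ≠ t c x)).card : ℝ) ≤
      2 ^ (Fintype.card X) * (1 - (1 / 2) ^ C) ^ T.card := by
  classical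
  induction T using Finset.induction_on with
  | empty => simp
  | insert c T hc ih =>
    set B := univ.filter (fun e : X → Bool => ∀ c ∈ T, ∃ x ∈ D c, e x ≠ t c x) with hB
    set m := B.filter (fun e => ∀ x ∈ D c, e x = t c x) with hm
    have h1 : univ.filter (fun e : X → Bool => ∀ c' ∈ insert c T, ∃ x ∈ D c', e x ≠ t c' x) =
        B.filter (fun e => ¬ ∀ x ∈ D c, e x = t c x) := by
      ext e
      simp only [hB, mem_filter, mem_univ, true_and, mem_insert, forall_eq_or_imp]
      constructor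
      · rintro ⟨⟨x, hx, hx2⟩, h⟩
        exact ⟨h, fun h' => hx2 (h' x hx)⟩
      · rintro ⟨h, h'⟩
        push Not at h'
        exact ⟨h', h⟩
    have h2 := Finset.card_filter_add_card_filter_not (s := B)
      (fun e : X → Bool => ∀ x ∈ D c, e x = t c x)
    -- the overriding map
    let g : (X → Bool) → (X → Bool) := fun e x => if x ∈ D c then t c x else e x
    have h3 : B.card ≤ 2 ^ C * m.card := by
      have h4 : B.image g ⊆ m := by
        intro e he
        obtain ⟨e0, he0, rfl⟩ := mem_image.1 he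
        rw [hm, mem_filter, hB, mem_filter]
        refine ⟨⟨mem_univ _, fun c' hc' => ?_⟩, fun x hx => if_pos hx⟩
        obtain ⟨x, hx, hx2⟩ := (mem_filter.1 he0).2 c' hc'
        have hne : c' ≠ c := fun h => hc (h ▸ hc')
        refine ⟨x, hx, ?_⟩
        have : x ∉ D c := Finset.disjoint_left.1 (hD c' c hne) hx
        show (if x ∈ D c then t c x else e0 x) ≠ _
        rw [if_neg this]
        exact hx2
      have h5 : B.card ≤ 2 ^ C * (B.image g).card := by
        apply Finset.card_le_mul_card_image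
        intro e' _
        have h6 : (B.filter (fun e => g e = e')).card ≤ (D c).powerset.card := by
          apply Finset.card_le_card_of_injOn (fun e => (D c).filter (fun x => e x = true))
          · intro e _
            exact Finset.mem_coe.2 (mem_powerset.2 (filter_subset _ _))
          · intro e1 he1 e2 he2 h12
            funext x
            have e1' := (mem_filter.1 (Finset.mem_coe.1 he1)).2
            have e2' := (mem_filter.1 (Finset.mem_coe.1 he2)).2
            by_cases hx : x ∈ D c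
            · have h7 : x ∈ (D c).filter (fun x => e1 x = true) ↔
                  x ∈ (D c).filter (fun x => e2 x = true) := by
                have h12' : (D c).filter (fun x => e1 x = true) =
                  (D c).filter (fun x => e2 x = true) := h12
                rw [h12']
              rw [mem_filter, mem_filter] at h7
              have h8 : e1 x = true ↔ e2 x = true := by
                constructor
                · intro h; exact (h7.1 ⟨hx, h⟩).2
                · intro h; exact (h7.2 ⟨hx, h⟩).2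
              cases h9 : e1 x <;> cases h10 : e2 x <;> simp_all
            · have h7 : g e1 x = g e2 x := by rw [e1', e2']
              have h8 : g e1 x = e1 x := if_neg hx
              have h9 : g e2 x = e2 x := if_neg hx
              rw [← h8, ← h9, h7]
        rw [card_powerset] at h6
        exact h6.trans (Nat.pow_le_pow_right (by norm_num) (hC c))
      exact h5.trans (Nat.mul_le_mul_left _ (card_le_card h4))
    rw [h1, card_insert_of_notMem hc]
    have h3' : (B.card : ℝ) ≤ 2 ^ C * m.card := by exact_mod_cast h3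
    have h2' : (m.card : ℝ) + ((B.filter (fun e => ¬ ∀ x ∈ D c, e x = t c x)).card : ℝ) =
        B.card := by exact_mod_cast h2
    have h11 : (B.card : ℝ) * (1 / 2) ^ C ≤ m.card := by
      rw [one_div, inv_pow, ← div_eq_mul_inv, div_le_iff₀ (by positivity)]
      linarith
    have h12 : (0 : ℝ) ≤ 1 - (1 / 2) ^ C := by
      have : ((1 : ℝ) / 2) ^ C ≤ 1 := pow_le_one₀ (by norm_num) (by norm_num)
      linarith
    calc ((B.filter (fun e => ¬ ∀ x ∈ D c, e x = t c x)).card : ℝ)
        ≤ B.card * (1 - (1 / 2) ^ C) := by linarith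
      _ ≤ (2 ^ (Fintype.card X) * (1 - (1 / 2) ^ C) ^ T.card) * (1 - (1 / 2) ^ C) :=
          mul_le_mul_of_nonneg_right ih h12
      _ = _ := by rw [pow_succ]; ring

lemma idx_lt {k q L : ℕ} {a u v : ℕ} (ha : a < k * q) (hu : u < L) (hv : v < L) :
    u + a * v < k * q * L := by
  have h1 : (a + 1) * L ≤ k * q * L := Nat.mul_le_mul_right _ ha
  have h2 : a * v ≤ a * L := Nat.mul_le_mul_left _ hv.le
  nlinarith

/-- In every ordering there are many almost disjoint separated transversal tuples. -/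
lemma lemmaA (k q L K M : ℕ) (hK : k * q * L = K) (hM : q * K = M)
    (c : Fin k × Fin (k * M) → ℕ) (hc : Function.Injective c) :
    ∃ (σ : ℕ → ℕ) (ψ : Fin L × Fin L → Fin (k * q) → Fin k × Fin (k * M)),
      (∀ a b, a < k → b < k → σ a = σ b → a = b) ∧
      (∀ w a, ((ψ w a).1 : ℕ) = σ ((a : ℕ) / q)) ∧
      (∀ w a b, a < b → c (ψ w a) < c (ψ w b)) ∧
      (∀ w w' a b a' b', a ≠ b → ψ w a = ψ w' a' → ψ w b = ψ w' b' → w = w') := by
  classical
  have hcard : ∀ i : Fin k, ((univ : Finset (Fin (k * M))).image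
      (fun t => c (i, t))).card = k * M := by
    intro i
    rw [card_image_of_injective, card_univ, Fintype.card_fin]
    intro t t' h
    exact (Prod.mk.inj (hc h)).2
  obtain ⟨σ, Y, hσ, hYX, hYc, hYo⟩ := sep M k
    (fun i => (univ : Finset (Fin (k * M))).image (fun t => c (i, t)))
    (fun i => (hcard i).ge)
  rcases Nat.eq_zero_or_pos q with hq0 | hq
  · subst hq0
    refine ⟨id, fun _ a => absurd a.2 (by simp), fun a b _ _ h => h, fun _ a => absurd a.2 (by simp),
      fun _ a => absurd a.2 (by simp), fun _ _ a => absurd a.2 (by simp)⟩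
  have hdiv : ∀ a : Fin (k * q), (a : ℕ) / q < k := fun a =>
    Nat.div_lt_of_lt_mul (lt_of_lt_of_eq a.2 (Nat.mul_comm k q))
  have hK' : ∀ (w : Fin L × Fin L) (a : Fin (k * q)), (w.1 : ℕ) + a * w.2 < K := by
    intro w a
    rw [← hK]
    exact idx_lt a.2 w.1.2 w.2.2
  have hidx : ∀ (w : Fin L × Fin L) (a : Fin (k * q)),
      ((a : ℕ) % q) * K + (w.1 + a * w.2) < M := by
    intro w a
    have h1 := hK' w a
    have h2 : (a : ℕ) % q < q := Nat.mod_lt _ hq
    have h3 : ((a : ℕ) % q + 1) * K ≤ q * K := Nat.mul_le_mul_right _ h2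
    rw [← hM]
    nlinarith

  have hval0 : ∃ val : Fin L × Fin L → Fin (k * q) → ℕ, ∀ (w : Fin L × Fin L) (a : Fin (k * q)),
      val w a = (Y ⟨(a : ℕ) / q, hdiv a⟩).orderEmbOfFin (hYc _) ⟨_, hidx w a⟩ := ⟨_, fun _ _ => rfl⟩
  obtain ⟨val, hvdef⟩ := hval0
  have hval : ∀ (w : Fin L × Fin L) (a : Fin (k * q)),
      val w a ∈ Y ⟨(a : ℕ) / q, hdiv a⟩ := fun w a => by
    rw [hvdef]
    exact Finset.orderEmbOfFin_mem _ _ _
  have hex : ∀ (w : Fin L × Fin L) (a : Fin (k * q)), ∃ t : Fin (k * M),
      c (σ ⟨(a : ℕ) / q, hdiv a⟩, t) = val w a := by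
    intro w a
    obtain ⟨t, -, ht⟩ := mem_image.1 (hYX _ (hval w a))
    exact ⟨t, ht⟩
  choose tt htt using hex
  -- comparison of two values in the same block
  have hsame : ∀ (w : Fin L × Fin L) (a b : Fin (k * q)), (a : ℕ) / q = (b : ℕ) / q →
      val w a = (Y ⟨(b : ℕ) / q, hdiv b⟩).orderEmbOfFin (hYc _) ⟨_, hidx w a⟩ := by
    intro w a b h
    rw [hvdef]
    have h3 : (⟨(a : ℕ) / q, hdiv a⟩ : Fin k) = ⟨(b : ℕ) / q, hdiv b⟩ := Fin.ext h
    congr 2
    exact congrArg Y h3
  refine ⟨fun j => if h : j < k then (σ ⟨j, h⟩ : ℕ) else 0,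
    fun w a => (σ ⟨(a : ℕ) / q, hdiv a⟩, tt w a), ?_, ?_, ?_, ?_⟩
  · intro a b ha hb h
    simp only [dif_pos ha, dif_pos hb] at h
    have := hσ (Fin.ext h)
    exact Fin.mk.inj_iff.1 this
  · intro w a
    simp only [dif_pos (hdiv a)]
  · intro w a b hab
    rw [htt, htt]
    have hab' : (a : ℕ) < b := hab
    rcases Nat.lt_or_ge ((a : ℕ) / q) ((b : ℕ) / q) with h | h
    · exact hYo ⟨_, hdiv a⟩ ⟨_, hdiv b⟩ h _ (hval w a) _ (hval w b)
    · have h1 : (a : ℕ) / q = (b : ℕ) / q := le_antisymm (Nat.div_le_div_right hab'.le) h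
      have h2 : (a : ℕ) % q < (b : ℕ) % q := by
        have e1 := Nat.div_add_mod (a : ℕ) q
        have e2 := Nat.div_add_mod (b : ℕ) q
        rw [h1] at e1
        omega
      rw [hsame w a b h1, hvdef w b]
      apply (Finset.orderEmbOfFin _ _).strictMono
      rw [Fin.lt_def]
      show ((a : ℕ) % q) * K + (w.1 + a * w.2) < ((b : ℕ) % q) * K + (w.1 + b * w.2)
      have h6 := hK' w a
      have h7 : ((a : ℕ) % q + 1) * K ≤ ((b : ℕ) % q) * K := Nat.mul_le_mul_right _ h2
      nlinarith
  · intro w w' a b a' b' hab ha hb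
    -- equal vertices have equal indices
    have key : ∀ a a' : Fin (k * q), ((σ ⟨(a : ℕ) / q, hdiv a⟩, tt w a) : Fin k × Fin (k * M)) =
        (σ ⟨(a' : ℕ) / q, hdiv a'⟩, tt w' a') →
        a = a' ∧ (w.1 : ℕ) + a * w.2 = w'.1 + a * w'.2 := by
      intro a a' h
      have h1 : (⟨(a : ℕ) / q, hdiv a⟩ : Fin k) = ⟨(a' : ℕ) / q, hdiv a'⟩ :=
        hσ (Prod.mk.inj h).1
      have h2 : val w a = val w' a' := by rw [← htt, ← htt, h]
      have h3 : (a : ℕ) / q = (a' : ℕ) / q := Fin.mk.inj_iff.1 h1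
      rw [hsame w a a' h3, hvdef w' a'] at h2
      have h5 := Fin.mk.inj_iff.1 ((Finset.orderEmbOfFin _ _).injective h2)
      have h6 := hK' w a
      have h7 := hK' w' a'
      have h8 : (a : ℕ) % q = (a' : ℕ) % q := by
        rcases Nat.lt_trichotomy ((a : ℕ) % q) ((a' : ℕ) % q) with h | h | h
        · have : ((a : ℕ) % q + 1) * K ≤ ((a' : ℕ) % q) * K := Nat.mul_le_mul_right _ h
          nlinarith
        · exact h
        · have : ((a' : ℕ) % q + 1) * K ≤ ((a : ℕ) % q) * K := Nat.mul_le_mul_right _ h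
          nlinarith
      have h9 : a = a' := by
        apply Fin.ext
        have e1 := Nat.div_add_mod (a : ℕ) q
        have e2 := Nat.div_add_mod (a' : ℕ) q
        rw [h3, h8] at e1
        omega
      subst h9
      exact ⟨rfl, by omega⟩
    obtain ⟨-, e1⟩ := key a a' ha
    obtain ⟨-, e2⟩ := key b b' hb
    have e1' : ((w.1 : ℕ) : ℤ) + (a : ℕ) * (w.2 : ℕ) = (w'.1 : ℕ) + (a : ℕ) * (w'.2 : ℕ) := by
      exact_mod_cast e1
    have e2' : ((w.1 : ℕ) : ℤ) + (b : ℕ) * (w.2 : ℕ) = (w'.1 : ℕ) + (b : ℕ) * (w'.2 : ℕ) := by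
      exact_mod_cast e2
    have hne : ((a : ℕ) : ℤ) - (b : ℕ) ≠ 0 := by
      intro h
      apply hab
      apply Fin.ext
      omega
    have h3 : (((a : ℕ) : ℤ) - (b : ℕ)) * (((w.2 : ℕ) : ℤ) - (w'.2 : ℕ)) = 0 := by
      linear_combination e1' - e2'
    have h4 : ((w.2 : ℕ) : ℤ) - (w'.2 : ℕ) = 0 := by
      rcases mul_eq_zero.1 h3 with h | h
      · exact absurd h hne
      · exact h
    have h5 : (w.2 : ℕ) = w'.2 := by omega
    have h6 : (w.1 : ℕ) = w'.1 := by rw [h5] at e1; omega
    exact Prod.ext (Fin.ext h6) (Fin.ext h5)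

/-- The host graph given by a `0/1` function on the pairs. -/
def host {k N : ℕ} (e : (Fin k × Fin N) × (Fin k × Fin N) → Bool) :
    SimpleGraph (Fin k × Fin N) where
  Adj u v := (u.1 < v.1 ∧ e (u, v) = true) ∨ (v.1 < u.1 ∧ e (v, u) = true)
  symm := ⟨by
    intro u v h
    exact h.symm⟩
  loopless := ⟨by
    intro u h
    rcases h with h | h <;> exact absurd h.1 (lt_irrefl _)⟩

lemma host_colorable {k N : ℕ} (e : (Fin k × Fin N) × (Fin k × Fin N) → Bool) :
    (host e).Colorable k := by
  refine ⟨SimpleGraph.Coloring.mk (fun v => v.1) ?_⟩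
  intro u v h
  rcases h with h | h
  · exact h.1.ne
  · exact h.1.ne'

/-- Choice of the size. -/
lemma exists_L (K C : ℕ) : ∃ L : ℕ, 0 < L ∧
    (((K * L).factorial : ℕ) : ℝ) * (1 - (1 / 2) ^ C) ^ (L * L) < 1 := by
  set r : ℝ := 1 - (1 / 2) ^ C with hr
  have hr0 : 0 ≤ r := by
    have : ((1 : ℝ) / 2) ^ C ≤ 1 := pow_le_one₀ (by norm_num) (by norm_num)
    linarith
  have hr1 : r < 1 := by
    have : (0 : ℝ) < (1 / 2) ^ C := by positivity
    linarith
  have h1 := (tendsto_pow_const_mul_const_pow_of_abs_lt_one K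
    (show |r| < 1 by rwa [abs_of_nonneg hr0])).const_mul ((K : ℝ) ^ K)
  rw [mul_zero] at h1
  have h2 := (h1.eventually (gt_mem_nhds (show (0 : ℝ) < 1 by norm_num))).and
    (Filter.eventually_gt_atTop 0)
  obtain ⟨L, hL, hL0⟩ := h2.exists
  refine ⟨L, hL0, ?_⟩
  have h3 : (((K * L).factorial : ℕ) : ℝ) ≤ (((K : ℝ) * L) ^ K) ^ L := by
    have := Nat.factorial_le_pow (K * L)
    calc (((K * L).factorial : ℕ) : ℝ) ≤ (((K * L) ^ (K * L) : ℕ) : ℝ) := by exact_mod_cast this
      _ = (((K : ℝ) * L) ^ K) ^ L := by push_cast; rw [pow_mul]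
  calc (((K * L).factorial : ℕ) : ℝ) * r ^ (L * L) ≤ (((K : ℝ) * L) ^ K) ^ L * r ^ (L * L) :=
        mul_le_mul_of_nonneg_right h3 (by positivity)
    _ = ((K : ℝ) ^ K * ((L : ℝ) ^ K * r ^ L)) ^ L := by
        rw [pow_mul, ← mul_pow]
        congr 1
        rw [mul_pow]
        ring
    _ < 1 := pow_lt_one₀ (by positivity) hL hL0.ne'

/-- Pairs of vertices. -/
abbrev PP (k M : ℕ) : Type := (Fin k × Fin (k * M)) × (Fin k × Fin (k * M))

/-- A `k`-colourable graph every ordering of which contains a prescribed pattern, separated. -/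
theorem ramsey_host (k q : ℕ) (P : ℕ → ℕ → Prop) (hP : ∀ a b, P a b → P b a) :
    ∃ (N : ℕ) (e : (Fin k × Fin N) × (Fin k × Fin N) → Bool),
      ∀ c : (Fin k × Fin N) ≃ Fin (Fintype.card (Fin k × Fin N)),
        ∃ ψ : Fin (k * q) → Fin k × Fin N, (∀ a b, a < b → c (ψ a) < c (ψ b)) ∧
          (∀ a b : Fin (k * q), (a : ℕ) / q = (b : ℕ) / q → ¬ (host e).Adj (ψ a) (ψ b)) ∧
          (∀ a b : Fin (k * q), (a : ℕ) / q ≠ (b : ℕ) / q →
            ((host e).Adj (ψ a) (ψ b) ↔ P a b)) := by
  classical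
  obtain ⟨L, hL0, hL⟩ := exists_L (k * (k * (q * (k * q)))) ((k * q) * (k * q))
  obtain ⟨K, hK⟩ : ∃ K, k * q * L = K := ⟨_, rfl⟩
  obtain ⟨M, hM⟩ : ∃ M, q * K = M := ⟨_, rfl⟩
  refine ⟨k * M, ?_⟩
  have hA := fun (c : (Fin k × Fin (k * M)) ≃ Fin (Fintype.card (Fin k × Fin (k * M)))) =>
    lemmaA k q L K M hK hM (fun v => (c v : ℕ)) (fun a b h => c.injective (Fin.ext h))
  choose σ ψ h1 h2 h3 h4 using hA
  have h3' : ∀ c w, Function.Injective (ψ c w) := by
    intro c w a b hab
    rcases lt_trichotomy a b with h | h | h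
    · have := h3 c w a b h
      rw [hab] at this
      exact absurd this (lt_irrefl _)
    · exact h
    · have := h3 c w b a h
      rw [hab] at this
      exact absurd this (lt_irrefl _)
  -- the sets of pairs and the targets
  let D : ∀ c : (Fin k × Fin (k * M)) ≃ Fin (Fintype.card (Fin k × Fin (k * M))),
      Fin L × Fin L → Finset ((Fin k × Fin (k * M)) × (Fin k × Fin (k * M))) := fun c w =>
    ((univ : Finset (Fin (k * q) × Fin (k * q))).filter
      (fun ab => (ψ c w ab.1).1 < (ψ c w ab.2).1)).image (fun ab => (ψ c w ab.1, ψ c w ab.2))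
  let t : ∀ c : (Fin k × Fin (k * M)) ≃ Fin (Fintype.card (Fin k × Fin (k * M))),
      Fin L × Fin L → ((Fin k × Fin (k * M)) × (Fin k × Fin (k * M))) → Bool := fun c w xy =>
    decide (∃ a b : Fin (k * q), xy = (ψ c w a, ψ c w b) ∧ P a b)
  have hDcard : ∀ c w, (D c w).card ≤ (k * q) * (k * q) := by
    intro c w
    refine card_image_le.trans ((card_filter_le _ _).trans ?_)
    rw [card_univ, Fintype.card_prod, Fintype.card_fin]
  have hDdisj : ∀ c w w', w ≠ w' → Disjoint (D c w) (D c w') := by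
    intro c w w' hne
    rw [Finset.disjoint_left]
    intro xy hx hx'
    obtain ⟨⟨a, b⟩, hab, rfl⟩ := mem_image.1 hx
    obtain ⟨⟨a', b'⟩, -, hab'⟩ := mem_image.1 hx'
    have hab1 := (mem_filter.1 hab).2
    have hne' : a ≠ b := by
      rintro rfl
      exact absurd hab1 (lt_irrefl _)
    exact hne (h4 c w w' a b a' b' hne' (Prod.mk.inj hab').1.symm (Prod.mk.inj hab').2.symm)
  -- the union bound
  let bad : ((Fin k × Fin (k * M)) ≃ Fin (Fintype.card (Fin k × Fin (k * M)))) →
      Finset (PP k M → Bool) := fun c =>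
    univ.filter (fun e : PP k M → Bool => ∀ w ∈ (univ : Finset (Fin L × Fin L)),
      ∃ x ∈ D c w, e x ≠ t c w x)
  have hbad : ∀ c, ((bad c).card : ℝ) ≤ 2 ^ (Fintype.card (PP k M)) *
      (1 - (1 / 2) ^ ((k * q) * (k * q))) ^ (L * L) := by
    intro c
    have h := count (D c) (t c) ((k * q) * (k * q)) (hDcard c) (hDdisj c) univ
    have h' : (univ : Finset (Fin L × Fin L)).card = L * L := by
      rw [card_univ, Fintype.card_prod, Fintype.card_fin]
    rw [h'] at h
    convert h
  have hnum : Fintype.card ((Fin k × Fin (k * M)) ≃ Fin (Fintype.card (Fin k × Fin (k * M)))) =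
      (k * (k * (q * (k * q))) * L).factorial := by
    rw [Fintype.card_equiv (Fintype.equivFin _)]
    congr 1
    rw [Fintype.card_prod, Fintype.card_fin, Fintype.card_fin, ← hM, ← hK]
    ring
  have hex : ∃ e : PP k M → Bool, ∀ c, e ∉ bad c := by
    by_contra hcon
    push Not at hcon
    have hsub : (univ : Finset (PP k M → Bool)) ⊆ univ.biUnion bad := by
      intro e _
      obtain ⟨c, hc⟩ := hcon e
      exact mem_biUnion.2 ⟨c, mem_univ _, hc⟩
    have e1 := (card_le_card hsub).trans card_biUnion_le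
    have e2 : ((univ : Finset (PP k M → Bool)).card : ℝ) ≤ ∑ c, ((bad c).card : ℝ) := by
      exact_mod_cast e1
    have e3 : ∑ c, ((bad c).card : ℝ) ≤
        ((k * (k * (q * (k * q))) * L).factorial : ℕ) * (2 ^ (Fintype.card (PP k M)) *
      (1 - (1 / 2) ^ ((k * q) * (k * q))) ^ (L * L)) := by
      refine (Finset.sum_le_card_nsmul _ _ _ (fun c _ => hbad c)).trans ?_
      rw [card_univ, hnum, nsmul_eq_mul]
    have e4 : ((univ : Finset (PP k M → Bool)).card : ℝ) = 2 ^ (Fintype.card (PP k M)) := by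
      rw [card_univ, Fintype.card_fun, Fintype.card_bool]
      push_cast
      rfl
    rw [e4] at e2
    have e5 : (2 : ℝ) ^ (Fintype.card (PP k M)) ≤ 2 ^ (Fintype.card (PP k M)) *
        (((k * (k * (q * (k * q))) * L).factorial : ℕ) *
      (1 - (1 / 2) ^ ((k * q) * (k * q))) ^ (L * L)) := by
      calc (2 : ℝ) ^ (Fintype.card (PP k M)) ≤ _ := e2.trans e3
        _ = _ := by ring
    have e6 : (0 : ℝ) < 2 ^ (Fintype.card (PP k M)) := by positivity
    have e7 : (2 : ℝ) ^ (Fintype.card (PP k M)) *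
        (((k * (k * (q * (k * q))) * L).factorial : ℕ) *
      (1 - (1 / 2) ^ ((k * q) * (k * q))) ^ (L * L)) < 2 ^ (Fintype.card (PP k M)) * 1 :=
      mul_lt_mul_of_pos_left hL e6
    rw [mul_one] at e7
    exact absurd (lt_of_le_of_lt e5 e7) (lt_irrefl _)
  obtain ⟨e, he⟩ := hex
  refine ⟨e, fun c => ?_⟩
  have h5 := he c
  have h6 : ∃ w, ∀ x ∈ D c w, e x = t c w x := by
    by_contra hcon
    push Not at hcon
    apply h5
    rw [mem_filter]
    exact ⟨mem_univ _, fun w _ => hcon w⟩
  obtain ⟨w, hw⟩ := h6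
  -- values of `e`
  have key : ∀ a b : Fin (k * q), (ψ c w a).1 < (ψ c w b).1 →
      (e (ψ c w a, ψ c w b) = true ↔ P a b) := by
    intro a b hab
    rw [hw (ψ c w a, ψ c w b) (mem_image.2 ⟨(a, b), mem_filter.2 ⟨mem_univ _, hab⟩, rfl⟩)]
    show decide _ = true ↔ _
    rw [decide_eq_true_iff]
    constructor
    · rintro ⟨a', b', h, hP'⟩
      rw [h3' c w (Prod.mk.inj h).1, h3' c w (Prod.mk.inj h).2]
      exact hP'
    · intro h
      exact ⟨a, b, rfl, h⟩
  have hdiv : ∀ a : Fin (k * q), (a : ℕ) / q < k := fun a =>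
    Nat.div_lt_of_lt_mul (lt_of_lt_of_eq a.2 (Nat.mul_comm k q))
  refine ⟨ψ c w, h3 c w, ?_, ?_⟩
  · intro a b hab hadj
    have h7 : (ψ c w a).1 = (ψ c w b).1 := by
      apply Fin.ext
      rw [h2, h2, hab]
    rcases hadj with h | h
    · exact absurd h.1 (by rw [h7]; exact lt_irrefl _)
    · exact absurd h.1 (by rw [h7]; exact lt_irrefl _)
  · intro a b hab
    have h7 : (ψ c w a).1 ≠ (ψ c w b).1 := by
      intro h
      apply hab
      apply h1 c _ _ (hdiv a) (hdiv b)
      rw [← h2 c w, ← h2 c w, h]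
    rcases lt_or_gt_of_ne h7 with h | h
    · have h8 : (host e).Adj (ψ c w a) (ψ c w b) ↔ e (ψ c w a, ψ c w b) = true := by
        constructor
        · rintro (h' | h')
          · exact h'.2
          · exact absurd h'.1 (lt_asymm h)
        · intro h'
          exact Or.inl ⟨h, h'⟩
      rw [h8]
      exact key a b h
    · have h8 : (host e).Adj (ψ c w a) (ψ c w b) ↔ e (ψ c w b, ψ c w a) = true := by
        constructor
        · rintro (h' | h')
          · exact absurd h'.1 (lt_asymm h)
          · exact h'.2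
        · intro h'
          exact Or.inr ⟨h, h'⟩
      rw [h8, key b a h]
      exact ⟨hP _ _, hP _ _⟩

end Pool.Agent.X45.CircOrd
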