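import Mathlib
import Pool.Agent.X45.CircOrd

set_option autoImplicit false

namespace Pool.Agent.X45.CircMain

open Finset Pool.Agent.X45.CircOrd

/-- The cyclic order of `Z_n` on three elements: going upwards from `a` one meets `b` before `l`. -/
def Cyc {n : ℕ} (a b l : Fin n) : Prop := (a < b ∧ b < l) ∨ (b < l ∧ l < a) ∨ (l < a ∧ a < b)

/-- A circularly ordered graph, up to isomorphism: a graph on `Z_m`, with the cyclic order of
`Z_m`. -/
abbrev CircGraph : Type := Σ m : ℕ, SimpleGraph (Fin m)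

/-- The circularly ordered graph `H` occurs in `G` with the circular ordering given by the
bijection `c` of the vertex set with `Z_n`. -/
def Occurs (H : CircGraph) {V : Type} [Fintype V] (G : SimpleGraph V)
    (c : V ≃ Fin (Fintype.card V)) : Prop :=
  ∃ φ : Fin H.1 → V, Function.Injective φ ∧ (∀ u v, H.2.Adj u v ↔ G.Adj (φ u) (φ v)) ∧
    ∀ i j l, Cyc i j l → Cyc (c (φ i)) (c (φ j)) (c (φ l))

/-- `G` is `F`-free circularly orderable. -/
def FreeCirc (F : Set CircGraph) {V : Type} [Fintype V] (G : SimpleGraph V) : Prop :=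
  ∃ c : V ≃ Fin (Fintype.card V), ∀ H ∈ F, ¬ Occurs H G c

/-- The class of the `k`-colourable graphs is described by `F`. -/
def Describes (F : Set CircGraph) (k : ℕ) : Prop :=
  ∀ (V : Type) [Fintype V] (G : SimpleGraph V), FreeCirc F G ↔ G.Colorable k

/-- Adjacency of the circular clique. -/
def pat (n q a b : ℕ) : Prop := (b + q ≤ a ∧ a + q ≤ b + n) ∨ (a + q ≤ b ∧ b + q ≤ a + n)

/-- The circular clique `K_{n/q}`. -/
def TT (n q : ℕ) : SimpleGraph (Fin n) where
  Adj a b := a ≠ b ∧ pat n q a b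
  symm := ⟨fun _ _ h => ⟨h.1.symm, h.2.symm⟩⟩
  loopless := ⟨fun _ h => h.1 rfl⟩

/-- The circular clique `K_{(kq+1)/q}` is not `k`-colourable. -/
lemma TT_not_colorable (k q n : ℕ) (hk : 2 ≤ k) (hq : 1 ≤ q) (hn' : k * q + 1 = n) :
    ¬ (TT n q).Colorable k := by
  classical
  rintro ⟨C⟩
  have hn : 2 * q + 1 ≤ n := by
    rw [← hn']
    exact Nat.succ_le_succ (Nat.mul_le_mul_right _ hk)
  obtain ⟨y, hy⟩ := Fintype.exists_lt_card_fiber_of_mul_lt_card (C : Fin n → Fin k)
    (n := q) (by rw [Fintype.card_fin, Fintype.card_fin]; omega)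
  set S := univ.filter (fun x => C x = y) with hS
  have hSp : ∀ x ∈ S, ∀ x' ∈ S, x ≠ x' → ¬ pat n q x x' := by
    intro x hx x' hx' hne hp
    have h1 : (TT n q).Adj x x' := ⟨hne, hp⟩
    have h2 := C.valid h1
    rw [(mem_filter.1 hx).2, (mem_filter.1 hx').2] at h2
    exact h2 rfl
  obtain ⟨s, hs⟩ : S.Nonempty := card_pos.1 (by omega)
  have hcard : (S.erase s).card ≤ (Finset.Icc 1 (q - 1)).card := by
    apply Finset.card_le_card_of_injOn (fun x : Fin n =>
      if (s : ℕ) < x then (if (x : ℕ) < s + q then (x : ℕ) - s else x + q - s - n)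
      else (if (s : ℕ) < x + q then (x : ℕ) + q - s else x + n - s))
    · intro x hx
      have hx' := mem_erase.1 (mem_coe.1 hx)
      have h1 := hSp x hx'.2 s hs hx'.1
      have h2 : (x : ℕ) ≠ s := fun h => hx'.1 (Fin.ext h)
      have h3 := x.2
      have h4 := s.2
      unfold pat at h1
      simp only [mem_coe, mem_Icc]
      split_ifs <;> omega
    · intro x hx x' hx' hxx
      by_contra hne
      have hxe := mem_erase.1 (mem_coe.1 hx)
      have hxe' := mem_erase.1 (mem_coe.1 hx')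
      have h1 := hSp x hxe.2 s hs hxe.1
      have h1' := hSp x' hxe'.2 s hs hxe'.1
      have h1'' := hSp x hxe.2 x' hxe'.2 hne
      have h2 : (x : ℕ) ≠ s := fun h => hxe.1 (Fin.ext h)
      have h2' : (x' : ℕ) ≠ s := fun h => hxe'.1 (Fin.ext h)
      have h2'' : (x : ℕ) ≠ x' := fun h => hne (Fin.ext h)
      have h3 := x.2
      have h3' := x'.2
      have h4 := s.2
      unfold pat at h1 h1' h1''
      simp only at hxx
      split_ifs at hxx <;> omega
  rw [Nat.card_Icc, card_erase_of_mem hs] at hcard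
  omega

/-- Rotation of `Z_n` minus the point `z`. -/
def rot (n z x : ℕ) : ℕ := if z < x then x - z - 1 else x + (n - z - 1)

lemma rot_lt {n z x : ℕ} (hz : z < n) (hx : x < n) (h : x ≠ z) : rot n z x < n - 1 := by
  unfold rot; split_ifs <;> omega

lemma rot_inj {n z x y : ℕ} (hz : z < n) (hx : x < n) (hy : y < n) (_ : x ≠ z) (_ : y ≠ z)
    (hxy : rot n z x = rot n z y) : x = y := by
  unfold rot at hxy; split_ifs at hxy <;> omega

lemma rot_pat {n q z x y : ℕ} (hz : z < n) (hx : x < n) (hy : y < n) (_ : x ≠ z) (_ : y ≠ z) :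
    pat n q (rot n z x) (rot n z y) ↔ pat n q x y := by
  unfold rot pat; split_ifs <;> omega

/-- No finite description for `k ≥ 2`. -/
theorem not_describes (k : ℕ) (hk : 2 ≤ k) (F : Set CircGraph) (hF : F.Finite) :
    ¬ Describes F k := by
  intro hD
  obtain ⟨m0, hm0⟩ := (hF.image (fun H => H.1)).bddAbove
  have hm : ∀ H ∈ F, H.1 ≤ m0 := fun H hH => hm0 ⟨H, hH, rfl⟩
  set q := m0 + 1 with hq
  apply TT_not_colorable k q (k * q + 1) hk (by omega) rfl
  rw [← hD]
  refine ⟨finCongr (Fintype.card_fin _).symm, ?_⟩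
  rintro H hH ⟨φ, hφ, hadj, hcyc⟩
  -- a missing vertex
  have hmiss : ∃ z, ∀ i, φ i ≠ z := by
    by_contra hcon
    push Not at hcon
    have h1 : Function.Surjective φ := hcon
    have h2 := Fintype.card_le_of_surjective φ h1
    rw [Fintype.card_fin, Fintype.card_fin] at h2
    have h3 := hm H hH
    have h4 : 1 * q ≤ k * q := Nat.mul_le_mul_right _ (by omega)
    omega
  obtain ⟨z, hz⟩ := hmiss
  have hz' : ∀ i, (φ i : ℕ) ≠ z := fun i h => hz i (Fin.ext h)
  obtain ⟨N, e, he⟩ := ramsey_host k q (pat (k * q + 1) q) (fun a b h => h.symm)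
  obtain ⟨c, hc⟩ := (hD _ (host e)).2 (host_colorable e)
  obtain ⟨ψ, hψ, hψ0, hψ1⟩ := he c
  apply hc H hH
  have hlt : ∀ i, rot (k * q + 1) z (φ i) < k * q := fun i => rot_lt z.2 (φ i).2 (hz' i)
  have hψinj : Function.Injective ψ := by
    intro a b hab
    rcases lt_trichotomy a b with h | h | h
    · have := hψ a b h
      rw [hab] at this
      exact absurd this (lt_irrefl _)
    · exact h
    · have := hψ b a h
      rw [hab] at this
      exact absurd this (lt_irrefl _)
  refine ⟨fun i => ψ ⟨_, hlt i⟩, ?_, ?_, ?_⟩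
  · intro i j hij
    have h1 := Fin.mk.inj_iff.1 (hψinj hij)
    exact hφ (Fin.ext (rot_inj z.2 (φ i).2 (φ j).2 (hz' i) (hz' j) h1))
  · intro u v
    rw [hadj u v]
    have hp := rot_pat (q := q) z.2 (φ u).2 (φ v).2 (hz' u) (hz' v)
    by_cases hb : rot (k * q + 1) z (φ u) / q = rot (k * q + 1) z (φ v) / q
    · constructor
      · rintro ⟨-, h⟩
        exfalso
        have h2 := hp.2 h
        have e1 := Nat.div_add_mod (rot (k * q + 1) z (φ u)) q
        have e2 := Nat.div_add_mod (rot (k * q + 1) z (φ v)) q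
        have e3 : rot (k * q + 1) z (φ u) % q < q := Nat.mod_lt _ (by omega)
        have e4 : rot (k * q + 1) z (φ v) % q < q := Nat.mod_lt _ (by omega)
        rw [hb] at e1
        unfold pat at h2
        omega
      · intro h
        exact absurd h (hψ0 ⟨_, hlt u⟩ ⟨_, hlt v⟩ hb)
    · have h1 := hψ1 ⟨_, hlt u⟩ ⟨_, hlt v⟩ hb
      rw [h1]
      show (φ u ≠ φ v ∧ pat (k * q + 1) q (φ u) (φ v)) ↔ _
      rw [hp]
      constructor
      · exact fun h => h.2
      · intro h
        refine ⟨?_, h⟩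
        rintro huv
        rw [huv] at hb
        exact hb rfl
  · intro i j l hijl
    have h1 := hcyc i j l hijl
    have h2 : ∀ x y : Fin H.1, rot (k * q + 1) z (φ x) < rot (k * q + 1) z (φ y) →
        c (ψ ⟨_, hlt x⟩) < c (ψ ⟨_, hlt y⟩) := fun x y h => hψ _ _ h
    have h3 : ((φ i : ℕ) < φ j ∧ (φ j : ℕ) < φ l) ∨ ((φ j : ℕ) < φ l ∧ (φ l : ℕ) < φ i) ∨
        ((φ l : ℕ) < φ i ∧ (φ i : ℕ) < φ j) := h1
    have h4 : (rot (k * q + 1) z (φ i) < rot (k * q + 1) z (φ j) ∧
          rot (k * q + 1) z (φ j) < rot (k * q + 1) z (φ l)) ∨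
        (rot (k * q + 1) z (φ j) < rot (k * q + 1) z (φ l) ∧
          rot (k * q + 1) z (φ l) < rot (k * q + 1) z (φ i)) ∨
        (rot (k * q + 1) z (φ l) < rot (k * q + 1) z (φ i) ∧
          rot (k * q + 1) z (φ i) < rot (k * q + 1) z (φ j)) := by
      have e1 := hz' i
      have e2 := hz' j
      have e3 := hz' l
      have e4 := (φ i).2
      have e5 := (φ j).2
      have e6 := (φ l).2
      have e7 := z.2
      unfold rot
      split_ifs <;> omega
    unfold Cyc
    rcases h4 with h | h | h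
    · exact Or.inl ⟨h2 _ _ h.1, h2 _ _ h.2⟩
    · exact Or.inr (Or.inl ⟨h2 _ _ h.1, h2 _ _ h.2⟩)
    · exact Or.inr (Or.inr ⟨h2 _ _ h.1, h2 _ _ h.2⟩)

/-- The description of the edgeless graphs. -/
theorem describes_one : Describes {⟨2, ⊤⟩} 1 := by
  intro V _ G
  constructor
  · rintro ⟨c, hc⟩
    have hno : ∀ u v, ¬ G.Adj u v := by
      intro u v huv
      apply hc _ rfl
      refine ⟨![u, v], ?_, ?_, ?_⟩
      · intro i j hij
        fin_cases i <;> fin_cases j
        · rfl
        · exact absurd hij huv.ne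
        · exact absurd hij huv.ne'
        · rfl
      · intro i j
        fin_cases i <;> fin_cases j <;> simp [huv, huv.symm]
      · intro i j l h
        exfalso
        have hi : (i : ℕ) < 2 := i.2
        have hj : (j : ℕ) < 2 := j.2
        have hl : (l : ℕ) < 2 := l.2
        unfold Cyc at h
        omega
    exact ⟨SimpleGraph.Coloring.mk (fun _ => 0) (fun {u v} h => absurd h (hno u v))⟩
  · rintro ⟨C⟩
    refine ⟨Fintype.equivFin V, ?_⟩
    rintro H hH ⟨φ, -, hadj, -⟩
    rw [Set.mem_singleton_iff] at hH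
    subst hH
    have h1 : G.Adj (φ (0 : Fin 2)) (φ (1 : Fin 2)) := by
      rw [← hadj]
      simp
    exact C.valid h1 (Subsingleton.elim _ _)

end Pool.Agent.X45.CircMain
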