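import Mathlib

set_option autoImplicit false

namespace Pool.Agent.X45

open Finset

section General

variable {α : Type*} [DecidableEq α]

/-- Anticoncentration of a signed sum over a random subset. -/
lemma card_sum_eq_le (T : Finset α) (s : α → ℤ) (hs : ∀ e ∈ T, s e = 1 ∨ s e = -1) (c : ℤ) :
    (T.powerset.filter (fun H => ∑ e ∈ H, s e = c)).card ≤ (T.card).choose (T.card / 2) := by
  set B := T.filter (fun e => s e = -1) with hB
  have hBT : B ⊆ T := filter_subset _ _
  have hsum : ∀ H ⊆ T, ∑ e ∈ H, s e = ((H \ B).card : ℤ) - ((H ∩ B).card : ℤ) := by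
    intro H hH
    rw [← sum_inter_add_sum_sdiff H B]
    have h1 : ∑ e ∈ H \ B, s e = ((H \ B).card : ℤ) := by
      rw [card_eq_sum_ones]; push_cast
      refine sum_congr rfl fun e he => ?_
      rw [mem_sdiff] at he
      rcases hs e (hH he.1) with h | h
      · exact h
      · exact absurd (mem_filter.2 ⟨hH he.1, h⟩) he.2
    have h2 : ∑ e ∈ H ∩ B, s e = - ((H ∩ B).card : ℤ) := by
      rw [card_eq_sum_ones]; push_cast
      rw [← sum_neg_distrib]
      refine sum_congr rfl fun e he => ?_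
      rw [mem_inter] at he
      exact (mem_filter.1 he.2).2
    rw [h1, h2]; ring
  have key : (T.powerset.filter (fun H => ∑ e ∈ H, s e = c)).card ≤
      (powersetCard ((c + B.card).toNat) T).card := by
    refine card_le_card_of_injOn (fun H => symmDiff H B) ?_ ?_
    · intro H hH
      rw [mem_coe, mem_filter, mem_powerset] at hH
      obtain ⟨hHT, hc⟩ := hH
      rw [mem_coe, mem_powersetCard]
      refine ⟨?_, ?_⟩
      · intro x hx
        rw [mem_symmDiff] at hx
        rcases hx with h | h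
        · exact hHT h.1
        · exact hBT h.1
      · have h3 : (symmDiff H B).card = (H \ B).card + (B \ H).card := by
          rw [symmDiff_def, sup_eq_union, card_union_of_disjoint]
          exact disjoint_sdiff_sdiff
        have h4 : (B \ H).card + (H ∩ B).card = B.card := by
          rw [inter_comm]; exact card_sdiff_add_card_inter B H
        rw [hsum H hHT] at hc
        simp only []
        rw [h3]
        omega
    · intro H _ H' _ h
      exact symmDiff_left_injective B h
  rw [card_powersetCard] at key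
  exact key.trans (Nat.choose_le_middle _ _)

/-- Fibering lemma. -/
lemma card_fiber_le (U T : Finset α) (s : α → ℤ)
    (hs : ∀ e ∈ T, s e = 1 ∨ s e = -1) (c : ℤ) (P : Finset α → Prop) [DecidablePred P]
    (hP : ∀ H ⊆ U, P H → P (H \ T)) :
    (U.powerset.filter (fun H => ∑ e ∈ H, s e = c ∧ P H)).card ≤
      (T.card).choose (T.card / 2) * ((U \ T).powerset.filter P).card := by
  refine card_le_mul_card_image_of_maps_to (f := fun H => H \ T) ?_ _ ?_
  · intro H hH
    rw [mem_filter, mem_powerset] at hH ⊢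
    exact ⟨sdiff_subset_sdiff hH.1 subset_rfl, hP H hH.1 hH.2.2⟩
  · intro R _
    refine le_trans ?_ (card_sum_eq_le T s hs (c - ∑ e ∈ R, s e))
    refine card_le_card_of_injOn (fun H => H ∩ T) ?_ ?_
    · intro H hH
      rw [mem_coe, mem_filter, mem_filter, mem_powerset] at hH
      obtain ⟨⟨_, hc, _⟩, hR⟩ := hH
      rw [mem_coe, mem_filter, mem_powerset]
      refine ⟨inter_subset_right, ?_⟩
      have := sum_inter_add_sum_sdiff H T s
      rw [hR] at this
      show ∑ e ∈ H ∩ T, s e = _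
      linarith
    · intro H hH H' hH' h
      rw [mem_coe, mem_filter] at hH hH'
      have h1 : H \ T = H' \ T := hH.2.trans hH'.2.symm
      have h2 : H ∩ T = H' ∩ T := h
      rw [← sdiff_union_inter H T, h1, h2, sdiff_union_inter]

/-- Lower bound for the number of balanced subsets. -/
lemma card_sum_zero_ge (U T : Finset α) (hTU : T ⊆ U) (s : α → ℤ)
    (hs : ∀ e ∈ T, s e = 1 ∨ s e = -1) (h0 : ∀ e ∈ U \ T, s e = 0) (N : ℕ)
    (hN2 : (T.filter (fun e => s e = -1)).card = N) (hN : T.card = 2 * N) :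
    (2 * N).choose N * 2 ^ (U.card - 2 * N) ≤
      (U.powerset.filter (fun H => ∑ e ∈ H, s e = 0)).card := by
  set B := T.filter (fun e => s e = -1) with hB
  have hBT : B ⊆ T := filter_subset _ _
  have hsum : ∀ H ⊆ T, ∑ e ∈ H, s e = ((H \ B).card : ℤ) - ((H ∩ B).card : ℤ) := by
    intro H hH
    rw [← sum_inter_add_sum_sdiff H B]
    have h1 : ∑ e ∈ H \ B, s e = ((H \ B).card : ℤ) := by
      rw [card_eq_sum_ones]; push_cast
      refine sum_congr rfl fun e he => ?_
      rw [mem_sdiff] at he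
      rcases hs e (hH he.1) with h | h
      · exact h
      · exact absurd (mem_filter.2 ⟨hH he.1, h⟩) he.2
    have h2 : ∑ e ∈ H ∩ B, s e = - ((H ∩ B).card : ℤ) := by
      rw [card_eq_sum_ones]; push_cast
      rw [← sum_neg_distrib]
      refine sum_congr rfl fun e he => ?_
      rw [mem_inter] at he
      exact (mem_filter.1 he.2).2
    rw [h1, h2]; ring
  have h1 : ((powersetCard N T) ×ˢ (U \ T).powerset).card =
      (2 * N).choose N * 2 ^ (U.card - 2 * N) := by
    rw [card_product, card_powersetCard, card_powerset, card_sdiff_of_subset hTU, hN]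
  rw [← h1]
  refine card_le_card_of_injOn (fun p => symmDiff p.1 B ∪ p.2) ?_ ?_
  · rintro ⟨H, R⟩ hp
    rw [mem_coe, mem_product, mem_powersetCard, mem_powerset] at hp
    obtain ⟨⟨hHT, hHc⟩, hR⟩ := hp
    simp only at hHT hHc hR
    rw [mem_coe, mem_filter, mem_powerset]
    have hsub : symmDiff H B ⊆ T := by
      intro x hx
      rw [mem_symmDiff] at hx
      rcases hx with h | h
      · exact hHT h.1
      · exact hBT h.1
    refine ⟨union_subset (hsub.trans hTU) (hR.trans sdiff_subset), ?_⟩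
    have hdisj : Disjoint (symmDiff H B) R :=
      disjoint_of_subset_left hsub (disjoint_of_subset_right hR disjoint_sdiff)
    show ∑ e ∈ symmDiff H B ∪ R, s e = 0
    rw [sum_union hdisj, sum_eq_zero (s := R) (fun e he => h0 e (hR he)), add_zero,
      hsum _ hsub]
    have e1 : (symmDiff H B) \ B = H \ B := by
      ext x; simp only [mem_sdiff, mem_symmDiff]; tauto
    have e2 : (symmDiff H B) ∩ B = B \ H := by
      ext x; simp only [mem_sdiff, mem_symmDiff, mem_inter]; tauto
    rw [e1, e2]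
    have h4 : (B \ H).card + (H ∩ B).card = B.card := by
      rw [inter_comm]; exact card_sdiff_add_card_inter B H
    have h5 : (H \ B).card + (H ∩ B).card = H.card := card_sdiff_add_card_inter H B
    omega
  · rintro ⟨H, R⟩ hp ⟨H', R'⟩ hp' h
    rw [mem_coe, mem_product, mem_powersetCard, mem_powerset] at hp hp'
    obtain ⟨⟨hHT, hHc⟩, hR⟩ := hp
    obtain ⟨⟨hHT', hHc'⟩, hR'⟩ := hp'
    simp only at hHT hHc hR hHT' hHc' hR' h
    have hRT : ∀ x ∈ R, x ∉ T := fun x hx => (mem_sdiff.1 (hR hx)).2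
    have hRT' : ∀ x ∈ R', x ∉ T := fun x hx => (mem_sdiff.1 (hR' hx)).2
    have hx : ∀ x, (x ∈ symmDiff H B ∨ x ∈ R) ↔ (x ∈ symmDiff H' B ∨ x ∈ R') := by
      intro x
      rw [← mem_union, ← mem_union, h]
    have hH : H = H' := by
      ext x
      have := hx x
      have a1 := hRT x
      have a2 := hRT' x
      have a3 := @hHT x
      have a4 := @hHT' x
      have a5 := @hBT x
      simp only [mem_symmDiff] at this
      by_cases b1 : x ∈ H <;> by_cases b2 : x ∈ H' <;> by_cases b3 : x ∈ B <;>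
        by_cases b4 : x ∈ T <;> simp_all
    have hRR : R = R' := by
      subst hH
      ext x
      have := hx x
      have a1 := hRT x
      have a2 := hRT' x
      have a3 := @hHT x
      have a5 := @hBT x
      by_cases b4 : x ∈ T
      · exact ⟨fun hh => absurd b4 (a1 hh), fun hh => absurd b4 (a2 hh)⟩
      · have hns : x ∉ symmDiff H B := by
          rw [mem_symmDiff]
          rintro (hh | hh)
          · exact b4 (a3 hh.1)
          · exact b4 (a5 hh.1)
        constructor
        · intro hh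
          rcases this.1 (Or.inr hh) with h1 | h1
          · exact absurd h1 hns
          · exact h1
        · intro hh
          rcases this.2 (Or.inr hh) with h1 | h1
          · exact absurd h1 hns
          · exact h1
    rw [hH, hRR]

end General

/-- Normalised middle binomial coefficient. -/
noncomputable def qm (m : ℕ) : ℝ := (m.choose (m / 2) : ℝ) / 2 ^ m

lemma qm_nonneg (m : ℕ) : 0 ≤ qm m := by unfold qm; positivity

lemma qm_pos (m : ℕ) : 0 < qm m := by
  unfold qm
  have : 0 < m.choose (m / 2) := Nat.choose_pos (Nat.div_le_self _ _)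
  positivity

lemma qm_succ_le (m : ℕ) : qm (m + 1) ≤ qm m := by
  unfold qm
  rw [div_le_div_iff₀ (by positivity) (by positivity), pow_succ]
  have h : (m + 1).choose ((m + 1) / 2) ≤ 2 * m.choose (m / 2) := by
    rcases Nat.eq_zero_or_pos ((m + 1) / 2) with h | h
    · rw [h]
      have : 0 < m.choose (m / 2) := Nat.choose_pos (Nat.div_le_self _ _)
      rw [Nat.choose_zero_right]; omega
    · obtain ⟨j, hj⟩ : ∃ j, (m + 1) / 2 = j + 1 := ⟨(m + 1) / 2 - 1, by omega⟩
      rw [hj, Nat.choose_succ_succ]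
      have h1 := Nat.choose_le_middle j m
      have h2 := Nat.choose_le_middle (j + 1) m
      simp only [Nat.succ_eq_add_one]
      omega
  have h' : ((m + 1).choose ((m + 1) / 2) : ℝ) ≤ 2 * (m.choose (m / 2) : ℝ) := by exact_mod_cast h
  nlinarith [pow_pos (by norm_num : (0 : ℝ) < 2) m]

lemma qm_antitone : Antitone qm := antitone_nat_of_succ_le qm_succ_le

lemma qm_two_mul (N : ℕ) : qm (2 * N) = (N.centralBinom : ℝ) / 4 ^ N := by
  unfold qm
  rw [Nat.centralBinom, Nat.mul_div_cancel_left _ (by norm_num), pow_mul]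
  norm_num

lemma qm_two_mul_succ (N : ℕ) :
    qm (2 * (N + 1)) = qm (2 * N) * ((2 * N + 1) / (2 * (N + 1))) := by
  rw [qm_two_mul, qm_two_mul]
  have h := Nat.succ_mul_centralBinom_succ N
  have h' : ((N : ℝ) + 1) * (N + 1).centralBinom = 2 * (2 * N + 1) * N.centralBinom := by
    exact_mod_cast h
  have h1 : ((N : ℝ) + 1) ≠ 0 := by positivity
  rw [div_mul_div_comm, div_eq_div_iff (by positivity) (by positivity), pow_succ]
  linear_combination (2 * (4 : ℝ) ^ N) * h'

lemma qm_sq_mul_le (N : ℕ) : qm (2 * N) ^ 2 * (2 * N + 1) ≤ 1 := by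
  induction N with
  | zero => simp [qm]
  | succ N ih =>
    rw [qm_two_mul_succ]
    have h : qm (2 * N) ^ 2 * (2 * N + 1) *
        ((2 * N + 1) * (2 * N + 3) / (2 * (N + 1)) ^ 2) ≤ 1 := by
      have h1 : ((2 * (N : ℝ) + 1) * (2 * N + 3) / (2 * (N + 1)) ^ 2) ≤ 1 := by
        rw [div_le_one (by positivity)]; nlinarith
      have h2 : 0 ≤ ((2 * (N : ℝ) + 1) * (2 * N + 3) / (2 * (N + 1)) ^ 2) := by positivity
      have h3 : 0 ≤ qm (2 * N) ^ 2 * (2 * N + 1) := by positivity
      nlinarith
    calc _ = qm (2 * N) ^ 2 * (2 * N + 1) *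
        ((2 * N + 1) * (2 * N + 3) / (2 * (N + 1)) ^ 2) := by
          push_cast
          have h1 : ((N : ℝ) + 1) ≠ 0 := by positivity
          field_simp
          ring
      _ ≤ 1 := h

/-- `q(m)^2 ≤ 1/m`. -/
lemma qm_sq_le (m : ℕ) : qm m ^ 2 * m ≤ 1 := by
  have h1 : qm m ≤ qm (2 * (m / 2)) := qm_antitone (by omega)
  have h2 := qm_sq_mul_le (m / 2)
  have h3 : (m : ℝ) ≤ 2 * ((m / 2 : ℕ) : ℝ) + 1 := by
    have : m ≤ 2 * (m / 2) + 1 := by omega
    exact_mod_cast this
  have h4 := qm_nonneg m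
  calc qm m ^ 2 * m ≤ qm (2 * (m / 2)) ^ 2 * (2 * ((m / 2 : ℕ) : ℝ) + 1) := by
        gcongr
    _ ≤ 1 := h2

/-- `q(2N)^2 N` is nondecreasing. -/
lemma qm_sq_mul_mono : Monotone (fun N : ℕ => qm (2 * N) ^ 2 * N) := by
  refine monotone_nat_of_le_succ fun N => ?_
  rw [qm_two_mul_succ]
  rcases Nat.eq_zero_or_pos N with rfl | hN
  · simp; positivity
  · have hN' : (0 : ℝ) < N := by exact_mod_cast hN
    have h : (1 : ℝ) ≤ (2 * N + 1) ^ 2 / (4 * N * (N + 1)) := by
      rw [le_div_iff₀ (by positivity)]; nlinarith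
    have h3 : 0 ≤ qm (2 * N) ^ 2 * N := by positivity
    calc qm (2 * N) ^ 2 * N ≤ qm (2 * N) ^ 2 * N * ((2 * N + 1) ^ 2 / (4 * N * (N + 1))) := by
          nlinarith
      _ = _ := by
          push_cast
          field_simp
          ring

lemma one_le_qm_sq (N : ℕ) (hN : 1 ≤ N) : 1 ≤ qm (2 * N) ^ 2 * (4 * N) := by
  have h := qm_sq_mul_mono hN
  simp only at h
  have h1 : qm (2 * 1) = 1 / 2 := by
    rw [qm_two_mul]; norm_num [Nat.centralBinom]
  rw [h1] at h
  norm_num at h
  linarith

section Tests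

variable {α : Type*} [DecidableEq α]

lemma single_test (U T : Finset α) (hTU : T ⊆ U) (s : α → ℤ)
    (hs : ∀ e ∈ T, s e = 1 ∨ s e = -1) (c : ℤ) (m : ℕ) (hm : m ≤ T.card) :
    ((U.powerset.filter (fun H => ∑ e ∈ H, s e = c)).card : ℝ) ≤ qm m * 2 ^ U.card := by
  have h1 := card_fiber_le U T s hs c (fun _ => True) (fun _ _ _ => trivial)
  simp only [and_true, filter_true] at h1
  rw [card_powerset, card_sdiff_of_subset hTU] at h1
  have h2 : T.card ≤ U.card := card_le_card hTU
  calc ((U.powerset.filter (fun H => ∑ e ∈ H, s e = c)).card : ℝ)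
      ≤ (((T.card).choose (T.card / 2) * 2 ^ (U.card - T.card) : ℕ) : ℝ) := by exact_mod_cast h1
    _ = qm T.card * 2 ^ U.card := by
        unfold qm
        push_cast
        have : (2 : ℝ) ^ U.card = 2 ^ T.card * 2 ^ (U.card - T.card) := by
          rw [← pow_add]; congr 1; omega
        rw [this]; field_simp
    _ ≤ qm m * 2 ^ U.card := by
        have := qm_antitone hm
        gcongr

lemma two_test (U T1 T2 : Finset α) (hT1 : T1 ⊆ U) (hT2 : T2 ⊆ U) (hd : Disjoint T1 T2)
    (s1 s2 : α → ℤ) (hs1 : ∀ e ∈ T1, s1 e = 1 ∨ s1 e = -1) (hs12 : ∀ e ∈ T1, s2 e = 0)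
    (hs2 : ∀ e ∈ T2, s2 e = 1 ∨ s2 e = -1) (c1 c2 : ℤ) (m1 m2 : ℕ) (hm1 : m1 ≤ T1.card)
    (hm2 : m2 ≤ T2.card) :
    ((U.powerset.filter (fun H => ∑ e ∈ H, s1 e = c1 ∧ ∑ e ∈ H, s2 e = c2)).card : ℝ) ≤
      qm m1 * qm m2 * 2 ^ U.card := by
  have h1 := card_fiber_le U T1 s1 hs1 c1 (fun H => ∑ e ∈ H, s2 e = c2) (fun H _ hH => by
    rw [← sum_inter_add_sum_sdiff H T1, sum_eq_zero (s := H ∩ T1)
      (fun e he => hs12 e (mem_inter.1 he).2), zero_add] at hH
    exact hH)
  have hT2' : T2 ⊆ U \ T1 := fun x hx =>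
    mem_sdiff.2 ⟨hT2 hx, fun h => (disjoint_left.1 hd) h hx⟩
  have h2 := single_test (U \ T1) T2 hT2' s2 hs2 c2 m2 hm2
  have h3 : T1.card ≤ U.card := card_le_card hT1
  rw [card_sdiff_of_subset hT1] at h2
  calc ((U.powerset.filter (fun H => ∑ e ∈ H, s1 e = c1 ∧ ∑ e ∈ H, s2 e = c2)).card : ℝ)
      ≤ (((T1.card).choose (T1.card / 2) *
        ((U \ T1).powerset.filter (fun H => ∑ e ∈ H, s2 e = c2)).card : ℕ) : ℝ) := by
          exact_mod_cast h1
    _ ≤ ((T1.card).choose (T1.card / 2) : ℝ) * (qm m2 * 2 ^ (U.card - T1.card)) := by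
        push_cast
        gcongr
    _ = qm T1.card * qm m2 * 2 ^ U.card := by
        have : (2 : ℝ) ^ U.card = 2 ^ T1.card * 2 ^ (U.card - T1.card) := by
          rw [← pow_add]; congr 1; omega
        rw [this]
        unfold qm
        field_simp
    _ ≤ qm m1 * qm m2 * 2 ^ U.card := by
        have := qm_antitone hm1
        have h4 := qm_nonneg m2
        gcongr

lemma balanced_ge (U T : Finset α) (hTU : T ⊆ U) (s : α → ℤ)
    (hs : ∀ e ∈ T, s e = 1 ∨ s e = -1) (h0 : ∀ e ∈ U \ T, s e = 0) (N : ℕ)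
    (hN2 : (T.filter (fun e => s e = -1)).card = N) (hN : T.card = 2 * N) :
    qm (2 * N) * 2 ^ U.card ≤
      ((U.powerset.filter (fun H => ∑ e ∈ H, s e = 0)).card : ℝ) := by
  have h := card_sum_zero_ge U T hTU s hs h0 N hN2 hN
  have h2 : 2 * N ≤ U.card := by rw [← hN]; exact card_le_card hTU
  calc qm (2 * N) * 2 ^ U.card = (((2 * N).choose N * 2 ^ (U.card - 2 * N) : ℕ) : ℝ) := by
        have : (2 : ℝ) ^ U.card = 2 ^ (2 * N) * 2 ^ (U.card - 2 * N) := by
          rw [← pow_add]; congr 1; omega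
        rw [this]
        unfold qm
        rw [Nat.mul_div_cancel_left _ (by norm_num : 0 < 2)]
        push_cast
        field_simp
    _ ≤ _ := by exact_mod_cast h

end Tests

section Hyp

variable {n : ℕ}

/-- Number of `k`-sets containing `A` and avoiding `B`. -/
lemma card_edges (k : ℕ) (A B : Finset (Fin n)) (hAB : Disjoint A B) (hA : A.card ≤ k) :
    (((univ : Finset (Fin n)).powersetCard k).filter (fun e => A ⊆ e ∧ Disjoint e B)).card =
      (n - (A.card + B.card)).choose (k - A.card) := by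
  have h1 : (powersetCard (k - A.card) (univ \ (A ∪ B))).card =
      (n - (A.card + B.card)).choose (k - A.card) := by
    rw [card_powersetCard, card_sdiff_of_subset (subset_univ _), card_univ, Fintype.card_fin,
      card_union_of_disjoint hAB]
  rw [← h1]
  refine card_nbij' (fun e => e \ A) (fun f => f ∪ A) ?_ ?_ ?_ ?_
  · intro e he
    rw [mem_coe, mem_filter, mem_powersetCard] at he
    obtain ⟨⟨_, hc⟩, hAe, hd⟩ := he
    rw [mem_coe, mem_powersetCard]
    refine ⟨?_, ?_⟩
    · intro x hx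
      have hx' := mem_sdiff.1 hx
      rw [mem_sdiff, mem_union]
      refine ⟨mem_univ _, ?_⟩
      rintro (h | h)
      · exact hx'.2 h
      · exact (disjoint_left.1 hd) hx'.1 h
    · show (e \ A).card = _
      rw [card_sdiff_of_subset hAe, hc]
  · intro f hf
    rw [mem_coe, mem_powersetCard] at hf
    obtain ⟨hf1, hf2⟩ := hf
    have hfA : Disjoint f A := disjoint_left.2 fun x hx hxA =>
      (mem_sdiff.1 (hf1 hx)).2 (mem_union_left _ hxA)
    have hfB : Disjoint f B := disjoint_left.2 fun x hx hxB =>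
      (mem_sdiff.1 (hf1 hx)).2 (mem_union_right _ hxB)
    rw [mem_coe, mem_filter, mem_powersetCard]
    refine ⟨⟨subset_univ _, ?_⟩, subset_union_right, ?_⟩
    · show (f ∪ A).card = k
      rw [card_union_of_disjoint hfA, hf2]; omega
    · exact disjoint_union_left.2 ⟨hfB, hAB⟩
  · intro e he
    rw [mem_coe, mem_filter] at he
    exact sdiff_union_of_subset he.2.1
  · intro f hf
    rw [mem_coe, mem_powersetCard] at hf
    have hfA : Disjoint f A := disjoint_left.2 fun x hx hxA =>
      (mem_sdiff.1 (hf.1 hx)).2 (mem_union_left _ hxA)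
    exact union_sdiff_cancel_right hfA

/-- Degree. -/
def dg (H : Finset (Finset (Fin n))) (v : Fin n) : ℕ := (H.filter (fun e => v ∈ e)).card

/-- Signed indicator. -/
def sg (u v : Fin n) (e : Finset (Fin n)) : ℤ :=
  (if u ∈ e then 1 else 0) - (if v ∈ e then 1 else 0)

lemma sum_sg (H : Finset (Finset (Fin n))) (u v : Fin n) :
    ∑ e ∈ H, sg u v e = (dg H u : ℤ) - dg H v := by
  unfold sg dg
  rw [sum_sub_distrib, sum_boole, sum_boole]

/-- The edge set. -/
def EU (n k : ℕ) : Finset (Finset (Fin n)) := (univ : Finset (Fin n)).powersetCard k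

lemma card_EU (n k : ℕ) : (EU n k).card = n.choose k := by
  unfold EU
  rw [card_powersetCard, card_univ, Fintype.card_fin]

lemma card_one_not_two {k : ℕ} (hk : 1 ≤ k) (u v w : Fin n) (huv : u ≠ v) (huw : u ≠ w)
    (hvw : v ≠ w) :
    ((EU n k).filter (fun e => u ∈ e ∧ v ∉ e ∧ w ∉ e)).card = (n - 3).choose (k - 1) := by
  have h := card_edges (n := n) k {u} {v, w} (by simp [huv, huw]) (by simpa using hk)
  rw [card_singleton, card_pair hvw] at h
  rw [← h]
  unfold EU
  congr 1
  refine filter_congr fun e _ => ?_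
  simp [singleton_subset_iff]

lemma card_one_not_one {k : ℕ} (hk : 1 ≤ k) (u v : Fin n) (huv : u ≠ v) :
    ((EU n k).filter (fun e => u ∈ e ∧ v ∉ e)).card = (n - 2).choose (k - 1) := by
  have h := card_edges (n := n) k {u} {v} (by simp [huv]) (by simpa using hk)
  rw [card_singleton, card_singleton] at h
  rw [← h]
  unfold EU
  congr 1
  refine filter_congr fun e _ => ?_
  simp [singleton_subset_iff]

lemma card_two {k : ℕ} (hk : 2 ≤ k) (u v : Fin n) (huv : u ≠ v) :
    ((EU n k).filter (fun e => u ∈ e ∧ v ∈ e)).card = (n - 2).choose (k - 2) := by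
  have h := card_edges (n := n) k {u, v} ∅ (by simp) (by rw [card_pair huv]; exact hk)
  rw [card_pair huv, card_empty] at h
  rw [add_zero] at h
  rw [← h]
  unfold EU
  congr 1
  refine filter_congr fun e _ => ?_
  simp [insert_subset_iff, singleton_subset_iff]

/-- Test set of a pair. -/
def TT (n k : ℕ) (u v : Fin n) : Finset (Finset (Fin n)) := (EU n k).filter (fun e => sg u v e ≠ 0)

lemma sg_cases (u v : Fin n) (e : Finset (Fin n)) :
    sg u v e = 0 ∨ sg u v e = 1 ∨ sg u v e = -1 := by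
  unfold sg; split_ifs <;> simp

lemma sg_ne_zero_iff (u v : Fin n) (e : Finset (Fin n)) :
    sg u v e ≠ 0 ↔ ((u ∈ e ∧ v ∉ e) ∨ (v ∈ e ∧ u ∉ e)) := by
  unfold sg
  by_cases h1 : u ∈ e <;> by_cases h2 : v ∈ e <;> simp [h1, h2]

lemma TT_pm {k : ℕ} {u v : Fin n} {e : Finset (Fin n)} (he : e ∈ TT n k u v) :
    sg u v e = 1 ∨ sg u v e = -1 := by
  unfold TT at he
  rw [mem_filter] at he
  rcases sg_cases u v e with h | h
  · exact absurd h he.2
  · exact h

lemma TT_neg_card {k : ℕ} (hk : 1 ≤ k) {u v : Fin n} (huv : u ≠ v) :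
    ((TT n k u v).filter (fun e => sg u v e = -1)).card = (n - 2).choose (k - 1) := by
  rw [← card_one_not_one hk v u huv.symm]
  congr 1
  ext e
  unfold TT sg
  by_cases h1 : u ∈ e <;> by_cases h2 : v ∈ e <;> simp [h1, h2]

lemma TT_card {k : ℕ} (hk : 1 ≤ k) {u v : Fin n} (huv : u ≠ v) :
    (TT n k u v).card = 2 * (n - 2).choose (k - 1) := by
  have h : TT n k u v = (EU n k).filter (fun e => u ∈ e ∧ v ∉ e) ∪
      (EU n k).filter (fun e => v ∈ e ∧ u ∉ e) := by
    rw [← filter_or]
    unfold TT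
    exact filter_congr fun e _ => sg_ne_zero_iff u v e
  rw [h, card_union_of_disjoint, card_one_not_one hk u v huv, card_one_not_one hk v u huv.symm]
  · ring
  · rw [disjoint_filter]
    rintro e _ ⟨h1, h2⟩ ⟨h3, _⟩
    exact h2 h3

/-- Upper bound on the number of hypergraphs with a prescribed degree difference. -/
lemma single_upper {k : ℕ} (hk : 1 ≤ k) {u v : Fin n} (huv : u ≠ v) (c : ℤ) :
    (((EU n k).powerset.filter (fun H => (dg H u : ℤ) - dg H v = c)).card : ℝ) ≤
      qm (2 * (n - 2).choose (k - 1)) * 2 ^ (n.choose k) := by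
  have h := single_test (EU n k) (TT n k u v) (filter_subset _ _) (sg u v)
    (fun e he => TT_pm he) c _ (TT_card hk huv).ge
  simp only [sum_sg, card_EU] at h
  exact h

lemma single_lower {k : ℕ} (hk : 1 ≤ k) {u v : Fin n} (huv : u ≠ v) :
    qm (2 * (n - 2).choose (k - 1)) * 2 ^ (n.choose k) ≤
    (((EU n k).powerset.filter (fun H => (dg H u : ℤ) - dg H v = 0)).card : ℝ) := by
  have h := balanced_ge (EU n k) (TT n k u v) (filter_subset _ _) (sg u v)
    (fun e he => TT_pm he) (fun e he => by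
      unfold TT at he
      rw [mem_sdiff, mem_filter] at he
      by_contra hne
      exact he.2 ⟨he.1, hne⟩) _ (TT_neg_card hk huv) (TT_card hk huv)
  simp only [sum_sg, card_EU] at h
  exact h

/-- Two overlapping pairs. -/
lemma overlap_upper {k : ℕ} (hk : 1 ≤ k) {a b c : Fin n} (hab : a ≠ b) (hac : a ≠ c)
    (hbc : b ≠ c) (x y : ℤ) :
    (((EU n k).powerset.filter
      (fun H => (dg H a : ℤ) - dg H c = x ∧ (dg H b : ℤ) - dg H c = y)).card : ℝ) ≤
      qm ((n - 3).choose (k - 1)) * qm ((n - 3).choose (k - 1)) * 2 ^ (n.choose k) := by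
  have h := two_test (EU n k) ((EU n k).filter (fun e => a ∈ e ∧ b ∉ e ∧ c ∉ e))
    ((EU n k).filter (fun e => b ∈ e ∧ a ∉ e ∧ c ∉ e)) (filter_subset _ _) (filter_subset _ _)
    (by
      rw [disjoint_filter]
      rintro e _ ⟨h1, _⟩ ⟨_, h2, _⟩
      exact h2 h1) (sg a c) (sg b c)
    (fun e he => by
      obtain ⟨_, h1, h2, h3⟩ := mem_filter.1 he
      left; simp [sg, h1, h3])
    (fun e he => by
      obtain ⟨_, h1, h2, h3⟩ := mem_filter.1 he
      simp [sg, h2, h3])
    (fun e he => by
      obtain ⟨_, h1, h2, h3⟩ := mem_filter.1 he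
      left; simp [sg, h1, h3]) x y _ _
      (card_one_not_two hk a b c hab hac hbc).ge
      (card_one_not_two hk b a c hab.symm hbc hac).ge
  simp only [sum_sg, card_EU] at h
  exact h

/-- Two disjoint pairs. -/
lemma disjoint_upper {k : ℕ} (hk : 2 ≤ k) {u v w x : Fin n} (huv : u ≠ v) (hwx : w ≠ x)
    (huw : u ≠ w) (hux : u ≠ x) (hvw : v ≠ w) (hvx : v ≠ x) (c d : ℤ) :
    (((EU n k).powerset.filter
      (fun H => (dg H u : ℤ) - dg H v = c ∧ (dg H w : ℤ) - dg H x = d)).card : ℝ) ≤
      qm (2 * (n - 2).choose (k - 1) - 4 * (n - 2).choose (k - 2)) *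
      qm (2 * (n - 2).choose (k - 1) - 4 * (n - 2).choose (k - 2)) * 2 ^ (n.choose k) := by
  have hint : (TT n k u v ∩ TT n k w x).card ≤ 4 * (n - 2).choose (k - 2) := by
    have hsub : TT n k u v ∩ TT n k w x ⊆
        ((EU n k).filter (fun e => u ∈ e ∧ w ∈ e) ∪ (EU n k).filter (fun e => u ∈ e ∧ x ∈ e)) ∪
        ((EU n k).filter (fun e => v ∈ e ∧ w ∈ e) ∪ (EU n k).filter (fun e => v ∈ e ∧ x ∈ e)) := by
      intro e he
      rw [mem_inter] at he
      obtain ⟨h1, h2⟩ := he
      unfold TT at h1 h2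
      rw [mem_filter, sg_ne_zero_iff] at h1 h2
      rw [mem_union, mem_union, mem_union, mem_filter, mem_filter, mem_filter, mem_filter]
      have := h1.1
      tauto
    calc _ ≤ _ := card_le_card hsub
      _ ≤ _ := card_union_le _ _
      _ ≤ _ := add_le_add (card_union_le _ _) (card_union_le _ _)
      _ = _ := by
        rw [card_two hk u w huw, card_two hk u x hux, card_two hk v w hvw, card_two hk v x hvx]
        ring
  have h1 : 2 * (n - 2).choose (k - 1) - 4 * (n - 2).choose (k - 2) ≤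
      (TT n k u v \ TT n k w x).card := by
    have := card_sdiff_add_card_inter (TT n k u v) (TT n k w x)
    rw [TT_card (by omega) huv] at this
    omega
  have h2 : 2 * (n - 2).choose (k - 1) - 4 * (n - 2).choose (k - 2) ≤
      (TT n k w x \ TT n k u v).card := by
    have := card_sdiff_add_card_inter (TT n k w x) (TT n k u v)
    rw [TT_card (by omega) hwx, inter_comm] at this
    omega
  have h := two_test (EU n k) (TT n k u v \ TT n k w x) (TT n k w x \ TT n k u v)
    (sdiff_subset.trans (filter_subset _ _)) (sdiff_subset.trans (filter_subset _ _))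
    disjoint_sdiff_sdiff (sg u v) (sg w x) (fun e he => TT_pm (mem_sdiff.1 he).1)
    (fun e he => by
      obtain ⟨h1, h2⟩ := mem_sdiff.1 he
      unfold TT at h1 h2
      rw [mem_filter] at h1 h2
      by_contra hne
      exact h2 ⟨h1.1, hne⟩)
    (fun e he => TT_pm (mem_sdiff.1 he).1) c d _ _ h1 h2
  simp only [sum_sg, card_EU] at h
  exact h

end Hyp

end Pool.Agent.X45
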