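import Mathlib
import Pool.Agent.H16R2.RankAmp3

set_option autoImplicit false
set_option linter.unusedSectionVars false

namespace Pool.Agent.X45.LS

open Module Pool.Agent.H16R2.RankAmp
open scoped Kronecker Matrix

section Hom

variable {K : Type*} [Field K] {V W : Type*} [AddCommGroup V] [Module K V]
  [AddCommGroup W] [Module K W] [FiniteDimensional K V] [FiniteDimensional K W]

/-- Dimension of the space of `X : V → W` with `f X c = X`. -/
lemma hom_bound (f : W →ₗ[K] W) (c : V →ₗ[K] V) :
    finrank K (E f c 1 ⊥) ≤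
      finrank K (LinearMap.range (c - 1)) * finrank K (LinearMap.range (f - 1)) +
      (finrank K V - finrank K (LinearMap.range (c - 1))) * finrank K (LinearMap.ker (f - 1)) := by
  set Z : Submodule K V := LinearMap.range (c - 1) with hZ
  -- restriction to Z
  have hmem : ∀ X : E f c 1 ⊥, ∀ z : Z, (X.1 : V →ₗ[K] W) z ∈ LinearMap.range (f - 1) := by
    rintro ⟨X, hX⟩ ⟨z, hz⟩
    obtain ⟨v, rfl⟩ := hz
    have h1 : f ∘ₗ X ∘ₗ c = X := by
      have := hX.1
      rwa [one_smul] at this
    refine ⟨-(X (c v)), ?_⟩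
    have h2 : f (X (c v)) = X v := by
      have := LinearMap.congr_fun h1 v
      simpa using this
    simp only [LinearMap.sub_apply, Module.End.one_apply, map_neg, map_sub, h2]
    abel
  let ρ : (E f c 1 ⊥) →ₗ[K] (Z →ₗ[K] LinearMap.range (f - 1)) :=
    { toFun := fun X => LinearMap.codRestrict _ (X.1.domRestrict Z) (hmem X)
      map_add' := fun X Y => by ext z; rfl
      map_smul' := fun a X => by ext z; rfl }
  have hker : finrank K (LinearMap.ker ρ) ≤
      (finrank K V - finrank K Z) * finrank K (LinearMap.ker (f - 1)) := by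
    have hz : ∀ X : LinearMap.ker ρ, Z ≤ LinearMap.ker (X.1.1 : V →ₗ[K] W) := by
      rintro ⟨X, hX⟩ z hz
      rw [LinearMap.mem_ker] at hX ⊢
      have := LinearMap.congr_fun hX ⟨z, hz⟩
      have h2 := congrArg Subtype.val this
      exact h2
    have hc : ∀ X : LinearMap.ker ρ, ∀ v, (X.1.1 : V →ₗ[K] W) v ∈ LinearMap.ker (f - 1) := by
      intro X v
      have h1 : f ∘ₗ X.1.1 ∘ₗ c = X.1.1 := by
        have := X.1.2.1
        rwa [one_smul] at this
      have h2 : X.1.1 (c v) = X.1.1 v := by
        have := hz X (show (c - 1) v ∈ Z from ⟨v, rfl⟩)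
        rw [LinearMap.mem_ker, LinearMap.sub_apply, map_sub, sub_eq_zero] at this
        exact this
      have h3 : f (X.1.1 (c v)) = X.1.1 v := by
        have := LinearMap.congr_fun h1 v
        simpa using this
      rw [LinearMap.mem_ker, LinearMap.sub_apply, sub_eq_zero, ← h2]
      rw [h3, h2]
      rfl
    let σ : LinearMap.ker ρ →ₗ[K] ((V ⧸ Z) →ₗ[K] LinearMap.ker (f - 1)) :=
      { toFun := fun X => Z.liftQ (LinearMap.codRestrict _ X.1.1 (hc X)) (by
          intro z hz'
          rw [LinearMap.mem_ker]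
          apply Subtype.ext
          exact hz X hz')
        map_add' := fun X Y => by
          apply Submodule.linearMap_qext
          ext v; rfl
        map_smul' := fun a X => by
          apply Submodule.linearMap_qext
          ext v; rfl }
    have hσ : Function.Injective σ := by
      intro X Y hXY
      apply Subtype.ext
      apply Subtype.ext
      ext v
      have := LinearMap.congr_fun hXY (Z.mkQ v)
      have h2 := congrArg Subtype.val this
      exact h2
    have h5 := LinearMap.finrank_le_finrank_of_injective hσ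
    rw [Module.finrank_linearMap, Submodule.finrank_quotient] at h5
    exact h5
  have hrange : finrank K (LinearMap.range ρ) ≤
      finrank K Z * finrank K (LinearMap.range (f - 1)) := by
    refine (Submodule.finrank_le _).trans ?_
    rw [Module.finrank_linearMap]
  have := LinearMap.finrank_range_add_finrank_ker ρ
  omega

end Hom

section Y

variable {K : Type*} [Field K]

/-- `y(A) = 1 - 2 rank(A-1)/d`. -/
noncomputable def yv {ι : Type*} [Fintype ι] [DecidableEq ι] (A : Matrix ι ι K) : ℝ :=
  1 - 2 * ((A - 1).rank : ℝ) / Fintype.card ι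

lemma rank_kron_ge {m n : Type*} [Fintype m] [Fintype n] [DecidableEq m] [DecidableEq n]
    (A : Matrix m m K) (B : Matrix n n K) :
    (A - 1).rank * Fintype.card n + (B - 1).rank * Fintype.card m ≤
      (A ⊗ₖ B - 1).rank + 2 * ((A - 1).rank * (B - 1).rank) := by
  have h1 := finrank_ker_kron_le A B 1
  rw [one_smul] at h1
  have h2 := hom_bound A.mulVecLin Bᵀ.mulVecLin
  have e1 : A.mulVecLin - 1 = (A - 1).mulVecLin := by
    apply LinearMap.ext; intro v; simp [Matrix.sub_mulVec]
  have e2 : Bᵀ.mulVecLin - 1 = ((B - 1)ᵀ).mulVecLin := by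
    apply LinearMap.ext; intro v; simp [Matrix.sub_mulVec, Matrix.transpose_sub]
  rw [e1, e2] at h2
  have e3 : finrank K (LinearMap.range ((B - 1)ᵀ).mulVecLin) = (B - 1).rank := by
    rw [← Matrix.rank_transpose (B - 1)]; rfl
  have e4 : finrank K (LinearMap.range (A - 1).mulVecLin) = (A - 1).rank := rfl
  have e5 := finrank_ker (A - 1)
  have e6 := finrank_ker (A ⊗ₖ B - 1)
  rw [e3, e4, Module.finrank_fintype_fun_eq_card] at h2
  have e7 : (B - 1).rank ≤ Fintype.card n := Matrix.rank_le_card_width _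
  have e8 : (A - 1).rank ≤ Fintype.card m := Matrix.rank_le_card_width _
  rw [Fintype.card_prod] at e6
  set a := (A - 1).rank
  set b := (B - 1).rank
  set N := Fintype.card m
  set M := Fintype.card n
  have e9 : finrank K (LinearMap.ker (A - 1).mulVecLin) = N - a := by omega
  rw [e9] at h2
  have h3 := h1.trans h2
  obtain ⟨p, hp⟩ := Nat.exists_eq_add_of_le e7
  obtain ⟨q, hq⟩ := Nat.exists_eq_add_of_le e8
  have hp' : M - b = p := by omega
  have hq' : N - a = q := by omega
  rw [hp', hq'] at h3
  rw [hp, hq] at e6 ⊢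
  nlinarith

lemma yv_kron {m n : Type*} [Fintype m] [Fintype n] [DecidableEq m] [DecidableEq n]
    [Nonempty m] [Nonempty n] (A : Matrix m m K) (B : Matrix n n K) :
    yv (A ⊗ₖ B) ≤ yv A * yv B := by
  have h := rank_kron_ge A B
  unfold yv
  rw [Fintype.card_prod]
  have h1 : (0 : ℝ) < Fintype.card m := by exact_mod_cast Fintype.card_pos
  have h2 : (0 : ℝ) < Fintype.card n := by exact_mod_cast Fintype.card_pos
  have h3 : ((A - 1).rank : ℝ) * Fintype.card n + (B - 1).rank * Fintype.card m ≤
      (A ⊗ₖ B - 1).rank + 2 * ((A - 1).rank * (B - 1).rank) := by exact_mod_cast h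
  push_cast
  set a : ℝ := ((A - 1).rank : ℝ)
  set b : ℝ := ((B - 1).rank : ℝ)
  set r : ℝ := ((A ⊗ₖ B - 1).rank : ℝ)
  set N : ℝ := (Fintype.card m : ℝ)
  set M : ℝ := (Fintype.card n : ℝ)
  have h4 : (1 - 2 * a / N) * (1 - 2 * b / M) = 1 - 2 * (a * M + b * N - 2 * (a * b)) / (N * M) := by
    field_simp
    ring
  rw [h4]
  have h5 : (a * M + b * N - 2 * (a * b)) / (N * M) ≤ r / (N * M) := by
    apply div_le_div_of_nonneg_right _ (by positivity)
    linarith
  have h6 : 2 * (a * M + b * N - 2 * (a * b)) / (N * M) =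
    2 * ((a * M + b * N - 2 * (a * b)) / (N * M)) := by ring
  have h7 : 2 * r / (N * M) = 2 * (r / (N * M)) := by ring
  rw [h6, h7]
  linarith

end Y

section Power

variable {K : Type*} [Field K]

lemma rank_dblHom_ge (d : ℕ) (A : Matrix (Fin d) (Fin d) K) :
    (A - 1).rank ≤ (dblHom K d A - 1).rank := by
  let P : Matrix (Fin d) (Fin d ⊕ Fin d) K :=
    Matrix.fromCols (1 : Matrix (Fin d) (Fin d) K) (0 : Matrix (Fin d) (Fin d) K)
  let Q : Matrix (Fin d ⊕ Fin d) (Fin d) K :=
    Matrix.fromRows (1 : Matrix (Fin d) (Fin d) K) (0 : Matrix (Fin d) (Fin d) K)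
  have h1 : dblHom K d A - 1 = Matrix.fromBlocks (A - 1) 0 0 0 := by
    rw [dblHom_apply, ← Matrix.fromBlocks_one]
    ext (i | i) (j | j) <;> simp [Matrix.one_apply]
  have h : A - 1 = P * (dblHom K d A - 1) * Q := by
    rw [h1]
    simp only [P, Q]
    rw [Matrix.fromCols_mul_fromBlocks, Matrix.fromCols_mul_fromRows]
    simp
  have h2 : (P * (dblHom K d A - 1) * Q).rank ≤ (dblHom K d A - 1).rank :=
    (Matrix.rank_mul_le_left _ _).trans (Matrix.rank_mul_le_right _ _)
  rw [← h] at h2
  exact h2

lemma rank_dblHom (d : ℕ) (A : Matrix (Fin d) (Fin d) K) :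
    (dblHom K d A - 1).rank = (A - 1).rank :=
  le_antisymm (rank_dblHom_sub_one_le d A) (rank_dblHom_ge d A)

/-- Tensor powers of `A ⊕ 1`. -/
lemma pow_hom (d : ℕ) (hd : 0 < d) (N : ℕ) :
    ∃ (m : ℕ) (ρ : Matrix (Fin d) (Fin d) K →* Matrix (Fin m) (Fin m) K), 0 < m ∧
      (∀ X, yv (ρ X) ≤ (1 - ((X - 1).rank : ℝ) / d) ^ N) ∧
      (∀ X, ((ρ X - 1).rank : ℝ) / m ≤ N * (((X - 1).rank : ℝ) / d)) := by
  have hd' : (0 : ℝ) < d := by exact_mod_cast hd
  have : Nonempty (Fin d) := ⟨⟨0, hd⟩⟩
  induction N with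
  | zero =>
    refine ⟨1, 1, by norm_num, fun X => ?_, fun X => ?_⟩
    · simp [yv]
    · simp
  | succ N ih =>
    obtain ⟨m, ρ, hm, h1, h2⟩ := ih
    have hm' : (0 : ℝ) < m := by exact_mod_cast hm
    have : Nonempty (Fin m) := ⟨⟨0, hm⟩⟩
    let e : Fin m × (Fin d ⊕ Fin d) ≃ Fin (m * (d + d)) :=
      ((Equiv.refl _).prodCongr finSumFinEquiv).trans finProdFinEquiv
    let τ : Matrix (Fin d) (Fin d) K →* Matrix (Fin m × (Fin d ⊕ Fin d)) (Fin m × (Fin d ⊕ Fin d)) K :=
      kronHom ρ (dblHom K d)
    let θ : Matrix (Fin d) (Fin d) K →* Matrix (Fin (m * (d + d))) (Fin (m * (d + d))) K :=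
      (Matrix.reindexAlgEquiv K K e).toAlgHom.toMonoidHom.comp τ
    have hθ : ∀ X, (θ X - 1).rank = (τ X - 1).rank := by
      intro X
      have : θ X - 1 = Matrix.reindex e e (τ X - 1) := by
        have h3 : Matrix.reindexAlgEquiv K K e (τ X - 1) =
          Matrix.reindexAlgEquiv K K e (τ X) - 1 := by
          rw [map_sub, map_one]
        have h4 : Matrix.reindexAlgEquiv K K e (τ X - 1) = Matrix.reindex e e (τ X - 1) := rfl
        rw [← h4, h3]
        rfl
      rw [this, Matrix.rank_reindex]
    refine ⟨m * (d + d), θ, by positivity, fun X => ?_, fun X => ?_⟩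
    · have hy : yv (θ X) = yv (τ X) := by
        unfold yv
        rw [hθ X, Fintype.card_fin, Fintype.card_prod, Fintype.card_sum, Fintype.card_fin,
          Fintype.card_fin]
      have hdbl : yv (dblHom K d X) = 1 - ((X - 1).rank : ℝ) / d := by
        unfold yv
        rw [rank_dblHom, Fintype.card_sum, Fintype.card_fin]
        push_cast
        field_simp
        ring
      have hx : 0 ≤ 1 - ((X - 1).rank : ℝ) / d := by
        have : ((X - 1).rank : ℝ) ≤ d := by
          have := Matrix.rank_le_card_width (X - 1)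
          rw [Fintype.card_fin] at this
          exact_mod_cast this
        rw [sub_nonneg, div_le_one hd']
        exact this
      rw [hy]
      calc yv (τ X) ≤ yv (ρ X) * yv (dblHom K d X) := yv_kron _ _
        _ = yv (ρ X) * (1 - ((X - 1).rank : ℝ) / d) := by rw [hdbl]
        _ ≤ (1 - ((X - 1).rank : ℝ) / d) ^ N * (1 - ((X - 1).rank : ℝ) / d) :=
            mul_le_mul_of_nonneg_right (h1 X) hx
        _ = _ := (pow_succ _ _).symm
    · rw [hθ X]
      have h3 := rank_kron_sub_one_le (ρ X) (dblHom K d X)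
      rw [rank_dblHom, Fintype.card_sum, Fintype.card_fin, Fintype.card_fin] at h3
      have h4 : ((τ X - 1).rank : ℝ) ≤ (ρ X - 1).rank * (d + d) + m * (X - 1).rank := by
        have : (τ X - 1).rank ≤ (ρ X - 1).rank * (d + d) + m * (X - 1).rank := h3
        exact_mod_cast this
      have h5 := h2 X
      rw [div_le_iff₀ hm'] at h5
      push_cast
      rw [div_le_iff₀ (by positivity)]
      have h6 : 0 ≤ ((X - 1).rank : ℝ) := Nat.cast_nonneg _
      calc ((τ X - 1).rank : ℝ) ≤ (ρ X - 1).rank * (d + d) + m * (X - 1).rank := h4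
        _ ≤ (N * ((X - 1).rank / d) * m) * (d + d) + m * (X - 1).rank := by gcongr
        _ ≤ (N + 1) * ((X - 1).rank / d) * (m * (d + d)) := by
            have h7 : (N + 1) * (((X - 1).rank : ℝ) / d) * (m * (d + d)) =
              (N * ((X - 1).rank / d) * m) * (d + d) + 2 * (m * (X - 1).rank) := by
              field_simp
              ring
            rw [h7]
            have : 0 ≤ (m : ℝ) * (X - 1).rank := by positivity
            linarith

end Power

end Pool.Agent.X45.LS
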