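import Mathlib

set_option autoImplicit false

namespace Pool.Agent.X45.LS

/-- The normalised rank distance on `GL(n, K)`. -/
noncomputable def drk {K : Type*} [Field K] {n : ℕ} (A B : GL (Fin n) K) : ℝ :=
  (((A : Matrix (Fin n) (Fin n) K) - (B : Matrix (Fin n) (Fin n) K)).rank : ℝ) / n

/-- `G` is `ε`-approximable by the groups `GL(n, K)`, `n ≥ 1`, with the normalised rank
distance. -/
def Approx (K : Type*) [Field K] (G : Type*) [Group G] (ε : ℝ) : Prop :=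
  ∀ (F : Finset G) (δ : ℝ), 0 < δ →
    ∃ (n : ℕ) (φ : G → GL (Fin n) K), 0 < n ∧
      (∀ g ∈ F, ∀ h ∈ F, drk (φ g * φ h) (φ (g * h)) < δ) ∧
      (∀ g ∈ F, ∀ h ∈ F, g ≠ h → ε - δ < drk (φ g) (φ h))

end Pool.Agent.X45.LS
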