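import Mathlib
import Pool.Agent.X45.LS1
import Pool.Agent.X45.LSDefs

set_option autoImplicit false
set_option linter.unusedSectionVars false

namespace Pool.Agent.X45.LS

open Module

variable {K : Type*} [Field K]

lemma rank_sub_units {n : ℕ} (A B : GL (Fin n) K) :
    ((A : Matrix (Fin n) (Fin n) K) - B).rank =
      (((B⁻¹ * A : GL (Fin n) K) : Matrix (Fin n) (Fin n) K) - 1).rank := by
  have h : (A : Matrix (Fin n) (Fin n) K) - B =
      (B : Matrix (Fin n) (Fin n) K) * (((B⁻¹ * A : GL (Fin n) K) : Matrix (Fin n) (Fin n) K) - 1) := by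
    rw [mul_sub, mul_one, ← Units.val_mul, mul_inv_cancel_left]
  rw [h]
  exact Matrix.rank_mul_eq_right_of_isUnit_det _ _ ((Matrix.isUnit_iff_isUnit_det _).1 B.isUnit)

lemma rank_map_units {n m : ℕ} (ρ : Matrix (Fin n) (Fin n) K →* Matrix (Fin m) (Fin m) K)
    (A B : GL (Fin n) K) :
    (((Units.map ρ A : GL (Fin m) K) : Matrix (Fin m) (Fin m) K) -
      ((Units.map ρ B : GL (Fin m) K) : Matrix (Fin m) (Fin m) K)).rank =
      (ρ ((B⁻¹ * A : GL (Fin n) K) : Matrix (Fin n) (Fin n) K) - 1).rank := by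
  rw [rank_sub_units, ← map_inv, ← map_mul]
  rfl

/-- **Amplification.** -/
theorem amplify {G : Type*} [Group G] {c : ℝ} (hc : 0 < c) (h : Approx K G c) :
    Approx K G (1 / 2) := by
  intro F δ hδ
  obtain ⟨N, hN⟩ := exists_pow_lt_of_lt_one hδ (show 1 - c / 2 < 1 by linarith)
  have hN1 : (0 : ℝ) < (N : ℝ) + 1 := by positivity
  set δ' : ℝ := min (c / 2) (δ / (N + 1)) with hδ'
  have hδ'0 : 0 < δ' := lt_min (by linarith) (by positivity)
  obtain ⟨n, φ, hn, h1, h2⟩ := h F δ' hδ'0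
  obtain ⟨m, ρ, hm, h3, h4⟩ := pow_hom (K := K) n hn N
  have hm' : (0 : ℝ) < m := by exact_mod_cast hm
  have hn' : (0 : ℝ) < n := by exact_mod_cast hn
  refine ⟨m, fun g => Units.map ρ (φ g), hm, ?_, ?_⟩
  · intro g hg k hk
    have h5 := h1 g hg k hk
    unfold drk at h5 ⊢
    rw [rank_sub_units] at h5
    rw [← map_mul, rank_map_units]
    have h6 := h4 ((((φ (g * k))⁻¹ * (φ g * φ k) : GL (Fin n) K)) : Matrix (Fin n) (Fin n) K)
    set r : ℝ := (((((φ (g * k))⁻¹ * (φ g * φ k) : GL (Fin n) K) :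
      Matrix (Fin n) (Fin n) K) - 1).rank : ℝ) / n
    have h7 : δ' ≤ δ / (N + 1) := min_le_right _ _
    have h8 : r < δ / (N + 1) := lt_of_lt_of_le h5 h7
    have h9 : (N : ℝ) * r ≤ N * (δ / (N + 1)) := by gcongr
    have h10 : (N : ℝ) * (δ / (N + 1)) < δ := by
      rw [mul_div_assoc', div_lt_iff₀ hN1]
      nlinarith
    linarith
  · intro g hg k hk hgk
    have h5 := h2 g hg k hk hgk
    unfold drk at h5 ⊢
    rw [rank_sub_units] at h5
    rw [rank_map_units]
    set B : Matrix (Fin n) (Fin n) K :=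
      (((φ k)⁻¹ * φ g : GL (Fin n) K) : Matrix (Fin n) (Fin n) K)
    have h6 := h3 B
    have h7 : δ' ≤ c / 2 := min_le_left _ _
    have h8 : 1 - ((B - 1).rank : ℝ) / n < 1 - c / 2 := by linarith
    have h9 : 0 ≤ 1 - ((B - 1).rank : ℝ) / n := by
      have : ((B - 1).rank : ℝ) ≤ n := by
        have := Matrix.rank_le_card_width (B - 1)
        rw [Fintype.card_fin] at this
        exact_mod_cast this
      rw [sub_nonneg, div_le_one hn']
      exact this
    have h10 : (1 - ((B - 1).rank : ℝ) / n) ^ N ≤ (1 - c / 2) ^ N := by gcongr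
    unfold yv at h6
    rw [Fintype.card_fin] at h6
    have h11 : 2 * ((ρ B - 1).rank : ℝ) / m = 2 * (((ρ B - 1).rank : ℝ) / m) := by ring
    rw [h11] at h6
    linarith

/-- Finite groups with a faithful linear representation. -/
theorem approx_of_injective {G : Type*} [Group G] {n : ℕ} (hn : 0 < n)
    (φ : G →* GL (Fin n) K) (hφ : Function.Injective φ) : Approx K G (1 / n) := by
  intro F δ hδ
  have hn' : (0 : ℝ) < n := by exact_mod_cast hn
  refine ⟨n, φ, hn, ?_, ?_⟩
  · intro g _ k _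
    unfold drk
    rw [map_mul, sub_self, Matrix.rank_zero]
    simpa using hδ
  · intro g _ k _ hgk
    unfold drk
    have h1 : ((φ g : Matrix (Fin n) (Fin n) K) - φ k).rank ≠ 0 := by
      intro h0
      have h0' : finrank K (LinearMap.range
          ((φ g : Matrix (Fin n) (Fin n) K) - φ k).mulVecLin) = 0 := h0
      rw [Submodule.finrank_eq_zero, LinearMap.range_eq_bot] at h0'
      have h2 : ((φ g : Matrix (Fin n) (Fin n) K) - φ k) = 0 := by
        have : ((φ g : Matrix (Fin n) (Fin n) K) - φ k).mulVecLin =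
          (0 : Matrix (Fin n) (Fin n) K).mulVecLin := by rw [h0', Matrix.mulVecLin_zero]
        exact Matrix.toLin'.injective (by rw [Matrix.toLin'_apply', Matrix.toLin'_apply', this])
      rw [sub_eq_zero] at h2
      exact hgk (hφ (Units.ext h2))
    have h2 : (1 : ℝ) ≤ (((φ g : Matrix (Fin n) (Fin n) K) - φ k).rank : ℝ) := by
      exact_mod_cast Nat.one_le_iff_ne_zero.2 h1
    have h3 : 1 / (n : ℝ) ≤ (((φ g : Matrix (Fin n) (Fin n) K) - φ k).rank : ℝ) / n := by
      gcongr
    linarith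

lemma Approx.mono {G : Type*} [Group G] {ε ε' : ℝ} (h : ε ≤ ε') (hG : Approx K G ε') :
    Approx K G ε := by
  intro F δ hδ
  obtain ⟨n, φ, hn, h1, h2⟩ := hG F δ hδ
  exact ⟨n, φ, hn, h1, fun g hg k hk hgk => by have := h2 g hg k hk hgk; linarith⟩

end Pool.Agent.X45.LS
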