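import Mathlib
import Pool.Agent.X45.LS2

set_option autoImplicit false
set_option linter.unusedSectionVars false

namespace Pool.Agent.X45.LS

open Module Finset

section Rank

variable {K : Type*} [Field K] {W : Type*} [AddCommGroup W] [Module K W] [FiniteDimensional K W]

/-- Rank of an endomorphism. -/
noncomputable def rk (f : Module.End K W) : ℕ := finrank K (LinearMap.range f)

lemma rk_neg (f : Module.End K W) : rk (-f) = rk f := by
  unfold rk
  rw [LinearMap.range_neg]

lemma rk_smul (a : K) (ha : a ≠ 0) (f : Module.End K W) : rk (a • f) = rk f := by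
  unfold rk
  rw [LinearMap.range_smul _ _ ha]

/-- Rank splits along a commuting idempotent. -/
lemma rk_split (e Y : Module.End K W) (he : e * e = e) (hc : Y * e = e * Y) :
    rk Y = rk (Y * e) + rk (Y * (1 - e)) := by
  unfold rk
  have h1 : LinearMap.range Y = LinearMap.range (Y * e) ⊔ LinearMap.range (Y * (1 - e)) := by
    apply le_antisymm
    · rintro _ ⟨x, rfl⟩
      rw [Submodule.mem_sup]
      refine ⟨(Y * e) x, ⟨x, rfl⟩, (Y * (1 - e)) x, ⟨x, rfl⟩, ?_⟩
      rw [← LinearMap.add_apply, ← mul_add]
      simp
    · rw [sup_le_iff]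
      constructor
      · rintro _ ⟨x, rfl⟩; exact ⟨e x, rfl⟩
      · rintro _ ⟨x, rfl⟩; exact ⟨(1 - e) x, rfl⟩
  have h2 : LinearMap.range (Y * e) ⊓ LinearMap.range (Y * (1 - e)) = ⊥ := by
    rw [eq_bot_iff]
    rintro z ⟨⟨x, hx⟩, ⟨y, hy⟩⟩
    rw [Submodule.mem_bot]
    have a1 : e z = z := by
      rw [← hx, ← Module.End.mul_apply, ← mul_assoc, ← hc, mul_assoc, he]
    have a2 : e z = 0 := by
      rw [← hy, ← Module.End.mul_apply, ← mul_assoc, ← hc, mul_assoc, mul_sub, mul_one, he,
        sub_self, mul_zero, LinearMap.zero_apply]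
    rw [← a1, a2]
  have h3 := Submodule.finrank_sup_add_finrank_inf_eq (LinearMap.range (Y * e))
    (LinearMap.range (Y * (1 - e)))
  rw [h2, finrank_bot, add_zero, ← h1] at h3
  exact h3

lemma rk_pm (h2 : (2 : K) ≠ 0) (u p : Module.End K W) (hu : u * u = 1) (hc : u * p = p * u) :
    rk ((u - 1) * p) + rk ((u + 1) * p) = rk p := by
  set e : Module.End K W := (2 : K)⁻¹ • (1 + u) with he
  have he2 : e * e = e := by
    rw [he, smul_mul_smul_comm, mul_add, add_mul, add_mul, hu]
    simp only [mul_one, one_mul]
    have : (1 + u + (u + 1) : Module.End K W) = (2 : K) • (1 + u) := by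
      rw [two_smul]; abel
    rw [this, smul_smul]
    congr 1
    field_simp
  have hce : p * e = e * p := by
    rw [he, mul_smul_comm, smul_mul_assoc, mul_add, add_mul, hc, mul_one, one_mul]
  have h1 := rk_split e p he2 hce
  have e1 : p * e = (2 : K)⁻¹ • ((u + 1) * p) := by
    rw [hce, he, smul_mul_assoc, add_comm 1 u]
  have e2 : p * (1 - e) = (-(2 : K)⁻¹) • ((u - 1) * p) := by
    rw [mul_sub, mul_one, e1, neg_smul, ← smul_neg]
    have : -((u - 1) * p) = (2 : K) • p - (u + 1) * p := by
      rw [two_smul]; noncomm_ring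
    rw [this, smul_sub, smul_smul, inv_mul_cancel₀ h2, one_smul]
  rw [h1, e1, e2, rk_smul _ (inv_ne_zero h2), rk_smul _ (neg_ne_zero.2 (inv_ne_zero h2)), add_comm]

lemma elem_bound (h2 : (2 : K) ≠ 0) : ∀ (k : ℕ) (T : (Fin k → ZMod 2) → Module.End K W),
    T 0 = 1 → (∀ v w, T (v + w) = T v * T w) → ∀ f, (∀ v, T v * f = f * T v) →
    2 * ∑ v, rk ((T v - 1) * f) ≤ 2 ^ k * rk f := by
  intro k
  induction k with
  | zero =>
    intro T h0 _ f _
    have : ∀ v : Fin 0 → ZMod 2, rk ((T v - 1) * f) = 0 := by
      intro v
      have hv : v = 0 := Subsingleton.elim _ _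
      rw [hv, h0, sub_self, zero_mul]
      unfold rk
      rw [LinearMap.range_zero, finrank_bot]
    simp [this]
  | succ k ih =>
    intro T h0 hT f hf
    set t : Module.End K W := T (Fin.cons 1 0) with ht
    have hzz : ∀ x : ZMod 2, x + x = 0 := by decide
    have htt : ∀ v, T v * T v = 1 := by
      intro v
      rw [← hT]
      have : v + v = 0 := funext fun i => hzz _
      rw [this, h0]
    have hcomm : ∀ v w, T v * T w = T w * T v := by
      intro v w
      rw [← hT, ← hT, add_comm]
    set e : Module.End K W := (2 : K)⁻¹ • (1 + t) with he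
    have he2 : e * e = e := by
      rw [he, smul_mul_smul_comm, mul_add, add_mul, add_mul, ht, htt]
      simp only [mul_one, one_mul]
      have : (1 + T (Fin.cons 1 0) + (T (Fin.cons 1 0) + 1) : Module.End K W) =
          (2 : K) • (1 + T (Fin.cons 1 0)) := by
        rw [two_smul]; abel
      rw [this, smul_smul]
      congr 1
      field_simp
    have hte : t * e = e := by
      rw [he, mul_smul_comm, mul_add, mul_one, ht, htt, add_comm]
    have hte' : t * (1 - e) = -(1 - e) := by
      rw [mul_sub, mul_one, hte]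
      have : e = (2 : K)⁻¹ • (1 + t) := he
      have h3 : (2 : K) • e = 1 + t := by
        rw [this, smul_smul, mul_inv_cancel₀ h2, one_smul]
      rw [two_smul] at h3
      have h4 : t = e + e - 1 := by rw [h3]; abel
      rw [h4]; abel
    have hTe : ∀ v, T v * e = e * T v := by
      intro v
      rw [he, mul_smul_comm, smul_mul_assoc, mul_add, add_mul, mul_one, one_mul, ht, hcomm]
    have hfe : f * e = e * f := by
      rw [he, mul_smul_comm, smul_mul_assoc, mul_add, add_mul, mul_one, one_mul, ht, hf]
    -- the restricted family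
    let T' : (Fin k → ZMod 2) → Module.End K W := fun v => T (Fin.cons 0 v)
    have hT'0 : T' 0 = 1 := by
      show T (Fin.cons 0 0) = 1
      have : (Fin.cons 0 0 : Fin (k + 1) → ZMod 2) = 0 := by
        ext i; refine Fin.cases ?_ (fun j => ?_) i <;> simp
      rw [this, h0]
    have hT'm : ∀ v w, T' (v + w) = T' v * T' w := by
      intro v w
      show T (Fin.cons 0 (v + w)) = T (Fin.cons 0 v) * T (Fin.cons 0 w)
      rw [← hT]
      congr 1
      ext i; refine Fin.cases ?_ (fun j => ?_) i <;> simp
    have hT'f : ∀ v, T' v * (f * e) = (f * e) * T' v := by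
      intro v
      show T (Fin.cons 0 v) * (f * e) = (f * e) * T (Fin.cons 0 v)
      rw [← mul_assoc, hf, mul_assoc, hTe, ← mul_assoc]
    have hIH := ih T' hT'0 hT'm (f * e) hT'f
    have hcons1 : ∀ v, T (Fin.cons 1 v) = T' v * t := by
      intro v
      show T (Fin.cons 1 v) = T (Fin.cons 0 v) * T (Fin.cons 1 0)
      rw [← hT]
      congr 1
      ext i; refine Fin.cases ?_ (fun j => ?_) i <;> simp
    -- split of the sum
    have hsum : ∑ v : Fin (k + 1) → ZMod 2, rk ((T v - 1) * f) =
        ∑ v : Fin k → ZMod 2, (rk ((T' v - 1) * f) + rk ((T' v * t - 1) * f)) := by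
      rw [← (Fin.consEquiv (fun _ : Fin (k + 1) => ZMod 2)).sum_comp, Fintype.sum_prod_type]
      have h01 : (univ : Finset (ZMod 2)) = {0, 1} := by decide
      rw [h01, sum_pair (by decide), ← sum_add_distrib]
      refine sum_congr rfl fun v _ => ?_
      have e1 : (Fin.consEquiv (fun _ : Fin (k + 1) => ZMod 2)) (0, v) = Fin.cons 0 v := rfl
      have e2 : (Fin.consEquiv (fun _ : Fin (k + 1) => ZMod 2)) (1, v) = Fin.cons 1 v := rfl
      rw [e1, e2, hcons1]
    have hterm : ∀ v : Fin k → ZMod 2, rk ((T' v - 1) * f) + rk ((T' v * t - 1) * f) =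
        2 * rk ((T' v - 1) * (f * e)) + rk (f * (1 - e)) := by
      intro v
      set u := T' v with hu
      have huu : u * u = 1 := htt _
      have hue : u * e = e * u := hTe _
      have huf : u * f = f * u := hf _
      have hut : u * t = t * u := hcomm _ _
      have htf : t * f = f * t := hf _
      have c1 : (u - 1) * f * e = e * ((u - 1) * f) := by
        rw [mul_assoc, hfe, ← mul_assoc, sub_mul, one_mul, hue, ← mul_assoc, mul_sub, mul_one]
      have c2 : (u * t - 1) * f * e = e * ((u * t - 1) * f) := by
        have : u * t * e = e * (u * t) := by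
          rw [mul_assoc, hTe, ← mul_assoc, hue, mul_assoc]
        have h5 : (u * t - 1) * e = e * (u * t - 1) := by
          rw [sub_mul, mul_sub, one_mul, mul_one, this]
        rw [mul_assoc, hfe, ← mul_assoc, h5, mul_assoc]
      rw [rk_split e ((u - 1) * f) he2 c1, rk_split e ((u * t - 1) * f) he2 c2]
      have d1 : (u * t - 1) * f * e = (u - 1) * f * e := by
        have : u * t * f * e = u * f * e := by
          rw [mul_assoc u t f, htf, mul_assoc u (f * t) e, mul_assoc f t e, hte, ← mul_assoc]
        rw [sub_mul, sub_mul, sub_mul, sub_mul, this]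
      have d2 : (u * t - 1) * f * (1 - e) = -((u + 1) * (f * (1 - e))) := by
        have : u * t * f * (1 - e) = -(u * f * (1 - e)) := by
          rw [mul_assoc u t f, htf, mul_assoc u (f * t) (1 - e), mul_assoc f t (1 - e), hte']
          noncomm_ring
        rw [sub_mul, sub_mul, this]
        noncomm_ring
      rw [d1, d2, rk_neg, mul_assoc (u - 1) f e, mul_assoc (u - 1) f (1 - e)]
      have hp : u * (f * (1 - e)) = (f * (1 - e)) * u := by
        rw [← mul_assoc, huf, mul_assoc, mul_sub, mul_one, hue, mul_assoc, sub_mul, one_mul]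
      have := rk_pm h2 u (f * (1 - e)) huu hp
      omega
    rw [hsum, sum_congr rfl fun v _ => hterm v, sum_add_distrib, ← mul_sum]
    have hfs := rk_split e f he2 hfe
    rw [hfs]
    simp only [sum_const, card_univ, Fintype.card_fun, ZMod.card, Fintype.card_fin, smul_eq_mul]
    rw [pow_succ]
    nlinarith

/-- Average bound in every characteristic. -/
lemma elem_bound' (k : ℕ) (T : (Fin k → ZMod 2) → Module.End K W)
    (h0 : T 0 = 1) (hT : ∀ v w, T (v + w) = T v * T w) :
    2 * ∑ v, rk (T v - 1) ≤ 2 ^ k * finrank K W := by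
  by_cases h2 : (2 : K) = 0
  · have key : ∀ v, 2 * rk (T v - 1) ≤ finrank K W := by
      intro v
      have hzz : ∀ x : ZMod 2, x + x = 0 := by decide
      have htt : T v * T v = 1 := by
        rw [← hT]
        have : v + v = 0 := funext fun i => hzz _
        rw [this, h0]
      have hsq : (T v - 1) * (T v - 1) = 0 := by
        have : (T v - 1) * (T v - 1) = (2 : K) • (1 - T v) := by
          rw [two_smul, mul_sub, sub_mul, htt]; noncomm_ring
        rw [this, h2, zero_smul]
      have hle : LinearMap.range (T v - 1) ≤ LinearMap.ker (T v - 1) := by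
        rintro _ ⟨x, rfl⟩
        rw [LinearMap.mem_ker, ← Module.End.mul_apply, hsq, LinearMap.zero_apply]
      have h3 := LinearMap.finrank_range_add_finrank_ker (T v - 1)
      have h4 := Submodule.finrank_mono hle
      unfold rk
      omega
    rw [mul_sum]
    calc ∑ v, 2 * rk (T v - 1) ≤ ∑ _v : Fin k → ZMod 2, finrank K W :=
          sum_le_sum fun v _ => key v
      _ = 2 ^ k * finrank K W := by
          simp [Fintype.card_fun, ZMod.card]
  · have := elem_bound h2 k T h0 hT 1 (fun v => by rw [mul_one, one_mul])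
    simp only [mul_one] at this
    have h1 : rk (1 : Module.End K W) = finrank K W := by
      unfold rk
      have : LinearMap.range (1 : Module.End K W) = ⊤ := LinearMap.range_id
      rw [this, finrank_top]
    rwa [h1] at this

end Rank

end Pool.Agent.X45.LS
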