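import Mathlib
import Pool.Agent.X45.LS3

set_option autoImplicit false
set_option linter.unusedSectionVars false

namespace Pool.Agent.X45.LS

open Module Finset

section Codim

variable {K : Type*} [Field K] {V V' : Type*} [AddCommGroup V] [Module K V]
  [FiniteDimensional K V] [AddCommGroup V'] [Module K V'] [FiniteDimensional K V']

lemma codim_iInf {ι : Type*} [DecidableEq ι] (D : ι → V →ₗ[K] V') (s : Finset ι) :
    finrank K V ≤ finrank K (⨅ p ∈ s, LinearMap.ker (D p) : Submodule K V) +
      ∑ p ∈ s, finrank K (LinearMap.range (D p)) := by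
  induction s using Finset.induction_on with
  | empty =>
    have h : (⨅ p ∈ (∅ : Finset ι), LinearMap.ker (D p) : Submodule K V) = ⊤ := by simp
    rw [h, finrank_top]
    simp
  | insert a s ha ih =>
    rw [Finset.iInf_insert, sum_insert ha]
    set W : Submodule K V := ⨅ p ∈ s, LinearMap.ker (D p)
    have h1 := Submodule.finrank_sup_add_finrank_inf_eq (LinearMap.ker (D a)) W
    have h2 := LinearMap.finrank_range_add_finrank_ker (D a)
    have h3 := Submodule.finrank_le (LinearMap.ker (D a) ⊔ W)
    omega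

lemma rank_le_codim_add (D : V →ₗ[K] V') (W : Submodule K V) :
    finrank K (LinearMap.range D) + finrank K W ≤
      finrank K V + finrank K (LinearMap.range (D.domRestrict W)) := by
  have h1 := LinearMap.finrank_range_add_finrank_ker D
  have h2 := LinearMap.finrank_range_add_finrank_ker (D.domRestrict W)
  have h3 : finrank K (LinearMap.ker (D.domRestrict W)) ≤ finrank K (LinearMap.ker D) := by
    let g : LinearMap.ker (D.domRestrict W) →ₗ[K] LinearMap.ker D :=
      { toFun := fun x => ⟨x.1.1, x.2⟩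
        map_add' := fun x y => rfl
        map_smul' := fun a x => rfl }
    apply LinearMap.finrank_le_finrank_of_injective (f := g)
    intro x y hxy
    apply Subtype.ext
    apply Subtype.ext
    have h4 := congrArg (fun z : LinearMap.ker D => (z : V)) hxy
    exact h4
  omega

end Codim

section Upper

variable {K : Type*} [Field K]

/-- The elementary abelian 2-group of rank `k`. -/
abbrev G2 (k : ℕ) : Type := Multiplicative (Fin k → ZMod 2)

lemma card_G2 (k : ℕ) : Fintype.card (G2 k) = 2 ^ k := by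
  simp [G2]

/-- Summed rank bound for approximate representations. -/
lemma upper_sum (k n : ℕ) (φ : G2 k → GL (Fin n) K) :
    2 * ∑ g : G2 k, ((φ g : Matrix (Fin n) (Fin n) K) - φ 1).rank ≤
      2 ^ k * n + 2 * 2 ^ k * ∑ p : G2 k × G2 k,
        (((φ p.1 * φ p.2 : GL (Fin n) K) : Matrix (Fin n) (Fin n) K) - φ (p.1 * p.2)).rank := by
  classical
  let D : G2 k × G2 k → (Fin n → K) →ₗ[K] (Fin n → K) := fun p =>
    (((φ p.1 * φ p.2 : GL (Fin n) K) : Matrix (Fin n) (Fin n) K) - φ (p.1 * p.2)).mulVecLin
  set W : Submodule K (Fin n → K) := ⨅ p ∈ (univ : Finset (G2 k × G2 k)), LinearMap.ker (D p)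
    with hW
  have hmem : ∀ x, x ∈ W ↔ ∀ g h : G2 k, (φ g : Matrix (Fin n) (Fin n) K).mulVecLin
      ((φ h : Matrix (Fin n) (Fin n) K).mulVecLin x) =
      (φ (g * h) : Matrix (Fin n) (Fin n) K).mulVecLin x := by
    intro x
    rw [hW]
    simp only [Submodule.mem_iInf, Finset.mem_univ, true_implies]
    constructor
    · intro h g k'
      have := h (g, k')
      rw [LinearMap.mem_ker] at this
      simp only [D, Matrix.mulVecLin_apply, Matrix.sub_mulVec, Units.val_mul, sub_eq_zero] at this
      simp only [Matrix.mulVecLin_apply, Matrix.mulVec_mulVec]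
      exact this
    · intro h p
      have := h p.1 p.2
      rw [LinearMap.mem_ker]
      simp only [D, Matrix.mulVecLin_apply, Matrix.sub_mulVec, Units.val_mul, sub_eq_zero]
      simp only [Matrix.mulVecLin_apply, Matrix.mulVec_mulVec] at this
      exact this
  have hone : ∀ x ∈ W, (φ 1 : Matrix (Fin n) (Fin n) K).mulVecLin x = x := by
    intro x hx
    have h1 := (hmem x).1 hx 1 1
    rw [mul_one] at h1
    have hinj : Function.Injective (φ 1 : Matrix (Fin n) (Fin n) K).mulVecLin := by
      intro a b hab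
      have h2 := congrArg (((φ 1)⁻¹ : GL (Fin n) K) : Matrix (Fin n) (Fin n) K).mulVecLin hab
      simpa [Matrix.mulVecLin_apply, Matrix.mulVec_mulVec, ← Units.val_mul] using h2
    exact hinj h1
  have hinv : ∀ g : G2 k, ∀ x ∈ W, (φ g : Matrix (Fin n) (Fin n) K).mulVecLin x ∈ W := by
    intro l x hx
    rw [hmem]
    intro g h
    have e1 := (hmem x).1 hx h l
    have e2 := (hmem x).1 hx g (h * l)
    have e3 := (hmem x).1 hx (g * h) l
    rw [e1, e2, e3, mul_assoc]
  let T : (Fin k → ZMod 2) → Module.End K W := fun v =>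
    (φ (Multiplicative.ofAdd v) : Matrix (Fin n) (Fin n) K).mulVecLin.restrict
      (hinv (Multiplicative.ofAdd v))
  have hT0 : T 0 = 1 := by
    apply LinearMap.ext
    rintro ⟨x, hx⟩
    apply Subtype.ext
    exact hone x hx
  have hTm : ∀ v w, T (v + w) = T v * T w := by
    intro v w
    apply LinearMap.ext
    rintro ⟨x, hx⟩
    apply Subtype.ext
    exact ((hmem x).1 hx (Multiplicative.ofAdd v) (Multiplicative.ofAdd w)).symm
  have hbound := elem_bound' k T hT0 hTm
  have hcod := codim_iInf D (univ : Finset (G2 k × G2 k))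
  rw [← hW, Module.finrank_fintype_fun_eq_card, Fintype.card_fin] at hcod
  have hWn : finrank K W ≤ n := by
    have := Submodule.finrank_le W
    rwa [Module.finrank_fintype_fun_eq_card, Fintype.card_fin] at this
  set S : ℕ := ∑ p : G2 k × G2 k,
        (((φ p.1 * φ p.2 : GL (Fin n) K) : Matrix (Fin n) (Fin n) K) - φ (p.1 * p.2)).rank with hS
  have hcod' : n ≤ finrank K W + S := hcod
  have hg : ∀ v : Fin k → ZMod 2,
      ((φ (Multiplicative.ofAdd v) : Matrix (Fin n) (Fin n) K) - φ 1).rank ≤
        S + rk (T v - 1) := by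
    intro v
    set Dv := ((φ (Multiplicative.ofAdd v) : Matrix (Fin n) (Fin n) K) - φ 1).mulVecLin with hDv
    have h1 := rank_le_codim_add Dv W
    rw [Module.finrank_fintype_fun_eq_card, Fintype.card_fin] at h1
    have h2 : finrank K (LinearMap.range (Dv.domRestrict W)) ≤ rk (T v - 1) := by
      have h3 : Dv.domRestrict W = W.subtype ∘ₗ (T v - 1) := by
        apply LinearMap.ext
        rintro ⟨x, hx⟩
        have h4 := hone x hx
        simp only [LinearMap.domRestrict_apply, LinearMap.comp_apply, LinearMap.sub_apply,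
          Submodule.subtype_apply, Module.End.one_apply, AddSubgroupClass.coe_sub]
        rw [hDv, Matrix.mulVecLin_apply, Matrix.sub_mulVec]
        rw [Matrix.mulVecLin_apply] at h4
        rw [h4]
        rfl
      rw [h3, LinearMap.range_comp]
      unfold rk
      exact Submodule.finrank_map_le _ _
    have h5 : ((φ (Multiplicative.ofAdd v) : Matrix (Fin n) (Fin n) K) - φ 1).rank =
      finrank K (LinearMap.range Dv) := rfl
    omega
  have hsum : ∑ g : G2 k, ((φ g : Matrix (Fin n) (Fin n) K) - φ 1).rank =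
      ∑ v : Fin k → ZMod 2,
        ((φ (Multiplicative.ofAdd v) : Matrix (Fin n) (Fin n) K) - φ 1).rank :=
    (Multiplicative.ofAdd (α := Fin k → ZMod 2)).sum_comp
      (fun g : G2 k => ((φ g : Matrix (Fin n) (Fin n) K) - φ 1).rank) |>.symm
  have hcard : (univ : Finset (Fin k → ZMod 2)).card = 2 ^ k := by
    simp
  calc 2 * ∑ g : G2 k, ((φ g : Matrix (Fin n) (Fin n) K) - φ 1).rank
      ≤ 2 * ∑ v : Fin k → ZMod 2, (S + rk (T v - 1)) := by
        rw [hsum]
        exact Nat.mul_le_mul_left _ (sum_le_sum fun v _ => hg v)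
    _ = 2 * 2 ^ k * S + 2 * ∑ v : Fin k → ZMod 2, rk (T v - 1) := by
        rw [sum_add_distrib, sum_const, hcard, smul_eq_mul]; ring
    _ ≤ 2 * 2 ^ k * S + 2 ^ k * n := by
        have : 2 ^ k * finrank K W ≤ 2 ^ k * n := Nat.mul_le_mul_left _ hWn
        omega
    _ = _ := by ring

/-- Elementary abelian 2-groups are not `ε`-approximable for `ε > 1/2` once they are large. -/
theorem not_approx {ε : ℝ} (hε : 1 / 2 < ε) : ∃ k : ℕ, ¬ Approx K (G2 k) ε := by
  classical
  obtain ⟨k, hk⟩ := exists_nat_gt (ε / (ε - 1 / 2))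
  have hk' : ε < k * (ε - 1 / 2) := by
    rwa [div_lt_iff₀ (by linarith)] at hk
  have hkq : (k : ℝ) ≤ 2 ^ k := by
    have := (Nat.lt_two_pow_self (n := k)).le
    exact_mod_cast this
  set q : ℝ := 2 ^ k with hq
  have hq0 : 0 < q := by positivity
  have hq1 : 1 ≤ q := by
    rw [hq]; exact one_le_pow₀ (by norm_num)
  have hgap : 0 < (q - 1) * ε - q / 2 := by nlinarith
  refine ⟨k, fun hA => ?_⟩
  set η : ℝ := (q - 1) * ε - q / 2 with hη
  set δ : ℝ := η / (2 * (q ^ 3 + q)) with hδ
  have hδ0 : 0 < δ := by positivity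
  obtain ⟨n, φ, hn, h1, h2⟩ := hA univ δ hδ0
  have hn' : (0 : ℝ) < n := by exact_mod_cast hn
  have hU := upper_sum (K := K) k n φ
  have hU' : 2 * ∑ g : G2 k, (((φ g : Matrix (Fin n) (Fin n) K) - φ 1).rank : ℝ) ≤
      q * n + 2 * q * ∑ p : G2 k × G2 k,
        ((((φ p.1 * φ p.2 : GL (Fin n) K) : Matrix (Fin n) (Fin n) K) -
          φ (p.1 * p.2)).rank : ℝ) := by
    rw [hq]
    exact_mod_cast hU
  have hcard : ((univ : Finset (G2 k)).card : ℝ) = q := by
    rw [card_univ, card_G2]; push_cast; rfl
  -- upper bound for the defects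
  have hdef : ∑ p : G2 k × G2 k, ((((φ p.1 * φ p.2 : GL (Fin n) K) :
      Matrix (Fin n) (Fin n) K) - φ (p.1 * p.2)).rank : ℝ) ≤ q * q * (δ * n) := by
    calc _ ≤ ∑ _p : G2 k × G2 k, δ * n := by
          refine sum_le_sum fun p _ => ?_
          have h3 := h1 p.1 (mem_univ _) p.2 (mem_univ _)
          unfold drk at h3
          rw [div_lt_iff₀ hn'] at h3
          exact h3.le
      _ = q * q * (δ * n) := by
          rw [sum_const, nsmul_eq_mul, card_univ, Fintype.card_prod, card_G2]
          push_cast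
          rfl
  -- lower bound for the distances
  have hlow : (q - 1) * ((ε - δ) * n) ≤
      ∑ g : G2 k, (((φ g : Matrix (Fin n) (Fin n) K) - φ 1).rank : ℝ) := by
    rw [← sum_erase_add _ _ (mem_univ (1 : G2 k))]
    have h3 : ∑ _g ∈ (univ : Finset (G2 k)).erase 1, ((ε - δ) * n) ≤
        ∑ g ∈ (univ : Finset (G2 k)).erase 1,
          (((φ g : Matrix (Fin n) (Fin n) K) - φ 1).rank : ℝ) := by
      refine sum_le_sum fun g hg => ?_
      have h4 := h2 g (mem_univ _) 1 (mem_univ _) (ne_of_mem_erase hg)
      unfold drk at h4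
      rw [lt_div_iff₀ hn'] at h4
      exact h4.le
    rw [sum_const, nsmul_eq_mul, card_erase_of_mem (mem_univ _), Nat.cast_sub
      (card_pos.2 ⟨1, mem_univ _⟩), hcard, Nat.cast_one] at h3
    have h5 : (0 : ℝ) ≤ (((φ 1 : Matrix (Fin n) (Fin n) K) - φ 1).rank : ℝ) := Nat.cast_nonneg _
    linarith
  have hfin : 2 * ((q - 1) * (ε - δ)) ≤ q + 2 * q * (q * q * δ) := by
    have : 2 * ((q - 1) * (ε - δ)) * n ≤ (q + 2 * q * (q * q * δ)) * n := by
      calc 2 * ((q - 1) * (ε - δ)) * n = 2 * ((q - 1) * ((ε - δ) * n)) := by ring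
        _ ≤ 2 * ∑ g : G2 k, (((φ g : Matrix (Fin n) (Fin n) K) - φ 1).rank : ℝ) := by linarith
        _ ≤ _ := hU'
        _ ≤ q * n + 2 * q * (q * q * (δ * n)) := by gcongr
        _ = _ := by ring
    exact le_of_mul_le_mul_right this hn'
  have h6 : 2 * η ≤ 2 * δ * (q ^ 3 + q) := by
    rw [hη]
    nlinarith
  have h7 : 2 * δ * (q ^ 3 + q) = η := by
    rw [hδ]; field_simp
  rw [h7] at h6
  linarith

/-- Every finite group has a faithful representation over every field. -/
theorem exists_faithful (G : Type) [Group G] [Finite G] :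
    ∃ (n : ℕ) (φ : G →* GL (Fin n) K), 0 < n ∧ Function.Injective φ := by
  classical
  have := Fintype.ofFinite G
  let L : G →* Module.End K (G → K) :=
    { toFun := fun g => LinearMap.funLeft K K (fun x => x * g)
      map_one' := by
        apply LinearMap.ext; intro f; ext x; simp [LinearMap.funLeft_apply]
      map_mul' := fun g h => by
        apply LinearMap.ext; intro f; ext x
        simp [LinearMap.funLeft_apply, mul_assoc] }
  let e := Fintype.equivFin G
  let M : G →* Matrix (Fin (Fintype.card G)) (Fin (Fintype.card G)) K :=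
    ((Matrix.reindexAlgEquiv K K e).toAlgHom.toMonoidHom.comp
      (LinearMap.toMatrixAlgEquiv' (R := K) (n := G)).toAlgHom.toMonoidHom).comp L
  refine ⟨Fintype.card G, M.toHomUnits, Fintype.card_pos, ?_⟩
  intro g h hgh
  have h1 : M g = M h := congrArg Units.val hgh
  have h2 : L g = L h := by
    have h1' : Matrix.reindexAlgEquiv K K e (LinearMap.toMatrixAlgEquiv' (L g)) =
      Matrix.reindexAlgEquiv K K e (LinearMap.toMatrixAlgEquiv' (L h)) := h1
    have h3 := (Matrix.reindexAlgEquiv K K e).injective h1'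
    exact (LinearMap.toMatrixAlgEquiv' (R := K) (n := G)).injective h3
  have h4 := LinearMap.congr_fun h2 (Pi.single g 1)
  have h5 := congrFun h4 1
  by_contra hne
  simp [L, LinearMap.funLeft_apply, Pi.single_apply] at h5
  exact hne h5.symm

end Upper

end Pool.Agent.X45.LS
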