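import Mathlib

set_option autoImplicit false

namespace Pool.Agent.X45.PartHyp

/-- An `r`-partite hypergraph with `s i` vertices on side `i` and edge set `E`; an edge contains
exactly one vertex of each side, so it is a choice function. The vertex set is the disjoint union
of the sides. `Spanning`: every vertex lies in at least one edge. -/
def Spanning {r : ℕ} (s : Fin r → ℕ) (E : Finset (∀ i, Fin (s i))) : Prop :=
  ∀ i, ∀ x : Fin (s i), ∃ e ∈ E, e i = x

/-- Any two edges share a vertex. -/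
def Intersecting {r : ℕ} (s : Fin r → ℕ) (E : Finset (∀ i, Fin (s i))) : Prop :=
  ∀ e ∈ E, ∀ f ∈ E, ∃ i, e i = f i

/-- `T` is a non-trivial vertex cover: it meets every edge, contains no edge and contains
no side. -/
def NontrivialCover {r : ℕ} (s : Fin r → ℕ) (E : Finset (∀ i, Fin (s i)))
    (T : Finset (Σ i, Fin (s i))) : Prop :=
  (∀ e ∈ E, ∃ i, (⟨i, e i⟩ : Σ i, Fin (s i)) ∈ T) ∧
  (∀ e ∈ E, ∃ i, (⟨i, e i⟩ : Σ i, Fin (s i)) ∉ T) ∧
  (∀ i, ∃ x : Fin (s i), (⟨i, x⟩ : Σ i, Fin (s i)) ∉ T)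

/-- The minimum size of a non-trivial vertex cover. -/
noncomputable def tauStar {r : ℕ} (s : Fin r → ℕ) (E : Finset (∀ i, Fin (s i))) : ℕ :=
  sInf {m : ℕ | ∃ T, NontrivialCover s E T ∧ T.card = m}

end Pool.Agent.X45.PartHyp
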