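import Mathlib

namespace Pool.Agent.X45

theorem warm : (2 : ℕ) + 2 = 4 := by norm_num

end Pool.Agent.X45
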